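import Pool.Agent.W_7d29a1_L1.DefsL1

/-!
The end point of the walk: exponential Markov inequality at the scale `1 / √n`.
-/

namespace Pool.Agent.W_7d29a1_L1

open MeasureTheory ProbabilityTheory Filter Topology Pool.Agent.W_MP_7d29a1_pr
  Pool.Agent.W_7d29a1_h46 Pool.Agent.W_7d29a1_h46u Pool.Agent.W_7d29a1_D2.B35
  Pool.Agent.W_7d29a1_Q29

namespace E65

/-- The probability of a step. -/
noncomputable def pe (h : Vec 1) (e : Step 1) : ℝ := Real.exp (inner ℝ h (emb (vec e))) / Phi h

lemma Phi_pos (h : Vec 1) : 0 < Phi h := by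
  unfold Phi
  exact Finset.sum_pos (fun _ _ => Real.exp_pos _) ⟨((0 : Fin 1), true), Finset.mem_univ _⟩

lemma pe_pos (h : Vec 1) (e : Step 1) : 0 < pe h e := div_pos (Real.exp_pos _) (Phi_pos h)

lemma pe_sum (h : Vec 1) : ∑ e, pe h e = 1 := by
  unfold pe
  rw [← Finset.sum_div]
  exact div_self (Phi_pos h).ne'

lemma pos_full {n : ℕ} (s : Fin n → Step 1) : pos s n = ∑ i, vec (s i) := by
  unfold pos
  exact Finset.sum_congr rfl fun i _ => if_pos i.2

lemma emb_sum {n : ℕ} (x : Fin n → Site 1) : emb (∑ i, x i) = ∑ i, emb (x i) := by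
  ext j
  simp [emb, Finset.sum_apply]

lemma pS_eq (h : Vec 1) {n : ℕ} (s : Fin n → Step 1) : pS h s = ∏ i, pe h (s i) := by
  unfold pS pe
  rw [Finset.prod_div_distrib, Finset.prod_const, Finset.card_univ, Fintype.card_fin, pos_full,
    emb_sum, inner_sum, Real.exp_sum]

lemma vm_apply (h : Vec 1) (j : Fin 1) : vm h j = ∑ e, pe h e * (vec e j : ℝ) := by
  unfold vm pe
  simp [emb, Finset.sum_apply]

lemma vec_abs (e : Step 1) (j : Fin 1) : |(vec e j : ℝ)| ≤ 1 := by
  unfold vec
  rcases eq_or_ne j e.1 with h | h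
  · subst h
    by_cases hb : e.2 <;> simp [hb]
  · simp [h]

/-- The exponential moment of a centred step. -/
lemma step_mgf (h : Vec 1) (j : Fin 1) (t : ℝ) :
    ∑ e, pe h e * Real.exp (t * ((vec e j : ℝ) - vm h j)) ≤ Real.exp (2 * t ^ 2) := by
  set x : Step 1 → ℝ := fun e => (vec e j : ℝ) with hx
  set v := vm h j with hv
  have hve : v = ∑ e, pe h e * x e := vm_apply h j
  have h1 : 1 ≤ ∑ e, pe h e * Real.exp (-(t * (x e - v))) := by
    have h2 : ∀ e, pe h e * (1 - t * (x e - v)) ≤ pe h e * Real.exp (-(t * (x e - v))) := by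
      intro e
      refine mul_le_mul_of_nonneg_left ?_ (pe_pos h e).le
      have := Real.add_one_le_exp (-(t * (x e - v)))
      linarith
    refine le_trans (le_of_eq ?_) (Finset.sum_le_sum fun e _ => h2 e)
    have h3 : ∑ e, pe h e * (1 - t * (x e - v)) =
        ∑ e, pe h e - t * (∑ e, pe h e * x e) + t * v * ∑ e, pe h e := by
      rw [Finset.mul_sum, Finset.mul_sum, ← Finset.sum_sub_distrib, ← Finset.sum_add_distrib]
      exact Finset.sum_congr rfl fun e _ => by ring
    rw [h3, pe_sum, ← hve]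
    ring
  set M := ∑ e, pe h e * Real.exp (t * (x e - v)) with hM
  have hM0 : 0 ≤ M := Finset.sum_nonneg fun e _ => mul_nonneg (pe_pos h e).le (Real.exp_pos _).le
  have h4 : M ≤ ∑ e, ∑ e', pe h e * pe h e' * Real.exp (t * (x e - x e')) := by
    calc M = M * 1 := (mul_one M).symm
      _ ≤ M * ∑ e, pe h e * Real.exp (-(t * (x e - v))) := mul_le_mul_of_nonneg_left h1 hM0
      _ = _ := by
        rw [hM, Finset.sum_mul_sum]
        refine Finset.sum_congr rfl fun e _ => Finset.sum_congr rfl fun e' _ => ?_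
        rw [show t * (x e - x e') = t * (x e - v) + -(t * (x e' - v)) by ring, Real.exp_add]
        ring
  have h5 : ∑ e, ∑ e', pe h e * pe h e' * Real.exp (t * (x e - x e')) =
      ∑ e, ∑ e', pe h e * pe h e' * Real.cosh (t * (x e - x e')) := by
    have h6 : ∑ e, ∑ e', pe h e * pe h e' * Real.exp (t * (x e - x e')) =
        ∑ e, ∑ e', pe h e * pe h e' * Real.exp (-(t * (x e - x e'))) := by
      rw [Finset.sum_comm]
      refine Finset.sum_congr rfl fun e _ => Finset.sum_congr rfl fun e' _ => ?_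
      rw [show -(t * (x e - x e')) = t * (x e' - x e) by ring]
      ring
    have h7 : ∑ e, ∑ e', pe h e * pe h e' * Real.cosh (t * (x e - x e')) =
        (∑ e, ∑ e', pe h e * pe h e' * Real.exp (t * (x e - x e')) +
          ∑ e, ∑ e', pe h e * pe h e' * Real.exp (-(t * (x e - x e')))) / 2 := by
      rw [← Finset.sum_add_distrib, Finset.sum_div]
      refine Finset.sum_congr rfl fun e _ => ?_
      rw [← Finset.sum_add_distrib, Finset.sum_div]
      refine Finset.sum_congr rfl fun e' _ => ?_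
      rw [Real.cosh_eq]
      ring
    rw [h7, ← h6]
    ring
  refine h4.trans (h5.le.trans ?_)
  calc ∑ e, ∑ e', pe h e * pe h e' * Real.cosh (t * (x e - x e'))
      ≤ ∑ e, ∑ e', pe h e * pe h e' * Real.exp (2 * t ^ 2) := by
        refine Finset.sum_le_sum fun e _ => Finset.sum_le_sum fun e' _ => ?_
        refine mul_le_mul_of_nonneg_left ?_ (mul_pos (pe_pos h e) (pe_pos h e')).le
        refine (Real.cosh_le_exp_half_sq _).trans (Real.exp_le_exp.2 ?_)
        have h8 : (x e - x e') ^ 2 ≤ 4 := by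
          have a1 := abs_le.1 (vec_abs e j)
          have a2 := abs_le.1 (vec_abs e' j)
          have a3 : |x e - x e'| ≤ 2 := by
            rw [abs_le]
            constructor <;> simp only [hx] <;> linarith [a1.1, a1.2, a2.1, a2.2]
          nlinarith [abs_nonneg (x e - x e'), sq_abs (x e - x e')]
        nlinarith [sq_nonneg t]
    _ = Real.exp (2 * t ^ 2) := by
        have : ∀ e, ∑ e', pe h e * pe h e' * Real.exp (2 * t ^ 2) =
            pe h e * Real.exp (2 * t ^ 2) := by
          intro e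
          rw [← Finset.sum_mul, ← Finset.mul_sum, pe_sum, mul_one]
        simp only [this]
        rw [← Finset.sum_mul, pe_sum, one_mul]

/-- The exponential moment of the centred end point. -/
lemma walk_mgf (h : Vec 1) (n : ℕ) (j : Fin 1) (t : ℝ) :
    ∑ s : Fin n → Step 1, pS h s * Real.exp (t * ((pos s n j : ℝ) - n * vm h j)) ≤
      Real.exp (2 * t ^ 2) ^ n := by
  have h1 : ∀ s : Fin n → Step 1, pS h s * Real.exp (t * ((pos s n j : ℝ) - n * vm h j)) =
      ∏ i, (pe h (s i) * Real.exp (t * ((vec (s i) j : ℝ) - vm h j))) := by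
    intro s
    rw [pS_eq, Finset.prod_mul_distrib, ← Real.exp_sum]
    congr 2
    rw [← Finset.mul_sum, Finset.sum_sub_distrib, pos_full]
    simp [Finset.sum_apply]
  simp only [h1]
  rw [← Fintype.sum_pow (fun e => pe h e * Real.exp (t * ((vec e j : ℝ) - vm h j))) n]
  refine pow_le_pow_left₀ (Finset.sum_nonneg fun e _ =>
    mul_nonneg (pe_pos h e).le (Real.exp_pos _).le) (step_mgf h j t) n

end E65

open E65 in
/-- L8. -/
theorem endL94 : EndL := by
  classical
  refine ⟨2 * Real.exp 2, by positivity, fun h n r hn hr => ?_⟩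
  have hn0 : (0 : ℝ) < n := by exact_mod_cast hn
  have hs0 : 0 < Real.sqrt n := Real.sqrt_pos.2 hn0
  have hsq : Real.sqrt n * Real.sqrt n = n := Real.mul_self_sqrt hn0.le
  set D : (Fin n → Step 1) → Fin 1 → ℝ := fun s j => (pos s n j : ℝ) - n * vm h j with hD
  have hp : ∀ s : Fin n → Step 1, 0 ≤ pS h s := fun s => by
    rw [pS_eq]
    exact Finset.prod_nonneg fun i _ => (pe_pos h _).le
  have hpt : ∀ s : Fin n → Step 1,
      (if ∃ j, r * Real.sqrt n ≤ |(pos s n j : ℝ) - n * vm h j| then pS h s else 0) ≤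
      ∑ j : Fin 1, Real.exp (-r) * (pS h s * Real.exp (1 / Real.sqrt n * D s j) +
        pS h s * Real.exp (-(1 / Real.sqrt n) * D s j)) := by
    intro s
    have hnn : ∀ j : Fin 1, 0 ≤ Real.exp (-r) * (pS h s * Real.exp (1 / Real.sqrt n * D s j) +
        pS h s * Real.exp (-(1 / Real.sqrt n) * D s j)) := fun j => by
      have := hp s
      positivity
    split_ifs with hj
    · obtain ⟨j, hj⟩ := hj
      refine le_trans ?_ (Finset.single_le_sum (fun j _ => hnn j) (Finset.mem_univ j))
      have h1 : 1 ≤ Real.exp (-r) * (Real.exp (1 / Real.sqrt n * D s j) +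
          Real.exp (-(1 / Real.sqrt n) * D s j)) := by
        have h2 : r ≤ 1 / Real.sqrt n * |D s j| := by
          rw [one_div, ← div_eq_inv_mul, le_div_iff₀ hs0]
          exact hj
        have h3 : Real.exp (1 / Real.sqrt n * |D s j|) ≤ Real.exp (1 / Real.sqrt n * D s j) +
            Real.exp (-(1 / Real.sqrt n) * D s j) := by
          rcases abs_cases (D s j) with ⟨h, -⟩ | ⟨h, -⟩ <;> rw [h]
          · linarith [Real.exp_pos (-(1 / Real.sqrt n) * D s j)]
          · rw [mul_neg, ← neg_mul]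
            linarith [Real.exp_pos (1 / Real.sqrt n * D s j)]
        calc (1 : ℝ) = Real.exp (-r) * Real.exp r := by rw [← Real.exp_add]; simp
          _ ≤ Real.exp (-r) * (Real.exp (1 / Real.sqrt n * D s j) +
              Real.exp (-(1 / Real.sqrt n) * D s j)) := by
            refine mul_le_mul_of_nonneg_left ?_ (Real.exp_pos _).le
            exact (Real.exp_le_exp.2 h2).trans h3
      calc pS h s = pS h s * 1 := (mul_one _).symm
        _ ≤ pS h s * (Real.exp (-r) * (Real.exp (1 / Real.sqrt n * D s j) +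
            Real.exp (-(1 / Real.sqrt n) * D s j))) := mul_le_mul_of_nonneg_left h1 (hp s)
        _ = _ := by ring
    · exact Finset.sum_nonneg fun j _ => hnn j
  have hexp2 : ∀ t : ℝ, t ^ 2 = 1 / n → Real.exp (2 * t ^ 2) ^ n = Real.exp 2 := by
    intro t ht
    rw [← Real.exp_nat_mul, ht]
    congr 1
    field_simp
  have ht1 : (1 / Real.sqrt n) ^ 2 = 1 / n := by
    rw [div_pow, one_pow, Real.sq_sqrt hn0.le]
  have ht2 : (-(1 / Real.sqrt n)) ^ 2 = 1 / n := by
    rw [neg_sq, ht1]
  refine (Finset.sum_le_sum fun s _ => hpt s).trans ?_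
  rw [Finset.sum_comm]
  have hj : ∀ j : Fin 1, ∑ s : Fin n → Step 1, Real.exp (-r) *
      (pS h s * Real.exp (1 / Real.sqrt n * D s j) +
        pS h s * Real.exp (-(1 / Real.sqrt n) * D s j)) ≤ Real.exp (-r) * (2 * Real.exp 2) := by
    intro j
    rw [← Finset.mul_sum, Finset.sum_add_distrib]
    refine mul_le_mul_of_nonneg_left ?_ (Real.exp_pos _).le
    have a1 := walk_mgf h n j (1 / Real.sqrt n)
    have a2 := walk_mgf h n j (-(1 / Real.sqrt n))
    rw [hexp2 _ ht1] at a1
    rw [hexp2 _ ht2] at a2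
    simp only [hD]
    linarith
  refine (Finset.sum_le_sum fun j _ => hj j).trans (le_of_eq ?_)
  rw [Finset.sum_const, Finset.card_univ, Fintype.card_fin, nsmul_eq_mul]
  push_cast
  ring

end Pool.Agent.W_7d29a1_L1
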