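import Pool.Agent.W_7d29a1_L1.DefsL1
import Pool.Agent.W_7d29a1_h46u.FreeV

/-!
One block: the near cells by the change of measure, the far cells by the walk (leaf OneL,
helper27).
-/

namespace Pool.Agent.W_7d29a1_L1

open MeasureTheory ProbabilityTheory Filter Topology Pool.Agent.W_MP_7d29a1_pr
  Pool.Agent.W_7d29a1_h46 Pool.Agent.W_7d29a1_h46u Pool.Agent.W_7d29a1_D2.B35
  Pool.Agent.W_7d29a1_Q29

namespace OneA94

lemma Phi_pos {d : ℕ} (hd : 0 < d) (h : Vec d) : 0 < Phi h :=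
  Finset.sum_pos (fun _ _ => Real.exp_pos _) ⟨(⟨0, hd⟩, true), Finset.mem_univ _⟩

lemma pS_nonneg (h : Vec 1) {n : ℕ} (s : Fin n → Step 1) : 0 ≤ pS h s :=
  div_nonneg (Real.exp_pos _).le (pow_nonneg (Phi_pos Nat.one_pos h).le _)

variable {ρ : Measure ℝ}

lemma Mb_nonneg (ρ : Measure ℝ) (β : ℝ) : 0 ≤ Mb ρ β :=
  integral_nonneg fun _ => (Real.exp_pos _).le

lemma dn_nonneg (ρ : Measure ℝ) (β : ℝ) {n : ℕ} (x : Site 1) (s : Fin n → Step 1) (η : Env 1) :
    0 ≤ dn ρ β x s η := div_nonneg (Real.exp_pos _).le (pow_nonneg (Mb_nonneg ρ β) _)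

lemma WE_nonneg (ρ : Measure ℝ) (β : ℝ) (h : Vec 1) (n : ℕ) (x : Site 1) (E : Set (Site 1))
    (η : Env 1) : 0 ≤ WE ρ β h n x E η := by
  classical
  unfold WE
  refine Finset.sum_nonneg fun s _ => ?_
  split_ifs
  · exact mul_nonneg (pS_nonneg h s) (dn_nonneg ρ β x s η)
  · exact le_rfl

lemma WE_le_univ (ρ : Measure ℝ) (β : ℝ) (h : Vec 1) (n : ℕ) (x : Site 1) (E : Set (Site 1))
    (η : Env 1) : WE ρ β h n x E η ≤ WE ρ β h n x Set.univ η := by
  classical
  unfold WE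
  refine Finset.sum_le_sum fun s _ => ?_
  rw [if_pos (Set.mem_univ _)]
  split_ifs
  · exact le_rfl
  · exact mul_nonneg (pS_nonneg h s) (dn_nonneg ρ β x s η)

variable [IsProbabilityMeasure ρ]

lemma int_dn (he : EM ρ) (β : ℝ) {n : ℕ} (x : Site 1) (s : Fin n → Step 1) :
    Integrable (fun η : Env 1 => dn ρ β x s η) (law 1 ρ) ∧
      ∫ η, dn ρ β x s η ∂(law 1 ρ) = 1 := by
  have h1 := (FreeV_iid (d := 1) (ρ := ρ)).integral_exp_energy (he β) s
  have hM : (0 : ℝ) < Mb ρ β := integral_exp_pos (he β)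
  have h2 : Integrable (fun η : Env 1 => Real.exp (β * energy (sh 0 x η) s)) (law 1 ρ) :=
    (mp_sh 0 x).integrable_comp_of_integrable h1.1
  have h3 : ∫ η : Env 1, Real.exp (β * energy (sh 0 x η) s) ∂(law 1 ρ) = Mb ρ β ^ n := by
    have h4 := LawU_integral (mp_sh (ρ := ρ) 0 x) h1.1.aestronglyMeasurable
    exact h4.trans h1.2
  refine ⟨h2.div_const _, ?_⟩
  unfold dn
  rw [integral_div, h3]
  exact div_self (pow_pos hM n).ne'

open Classical in
lemma int_WE (he : EM ρ) (β : ℝ) (h : Vec 1) (n : ℕ) (x : Site 1) (E : Set (Site 1)) :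
    Integrable (fun η : Env 1 => WE ρ β h n x E η) (law 1 ρ) ∧
      ∫ η, WE ρ β h n x E η ∂(law 1 ρ) =
        ∑ s : Fin n → Step 1, if x + pos s n ∈ E then pS h s else 0 := by
  have h1 : ∀ s : Fin n → Step 1, Integrable (fun η : Env 1 =>
      if x + pos s n ∈ E then pS h s * dn ρ β x s η else 0) (law 1 ρ) := by
    intro s
    split_ifs
    · exact (int_dn he β x s).1.const_mul _
    · exact integrable_zero _ _ _
  refine ⟨integrable_finsetSum _ fun s _ => h1 s, ?_⟩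
  unfold WE
  rw [integral_finsetSum _ fun s _ => h1 s]
  refine Finset.sum_congr rfl fun s _ => ?_
  split_ifs
  · rw [integral_const_mul, (int_dn he β x s).2, mul_one]
  · exact integral_zero _ _

lemma int_sqrt {F : Env 1 → ℝ} (hF : Integrable F (law 1 ρ)) (h0 : ∀ η, 0 ≤ F η) :
    Integrable (fun η => Real.sqrt (F η)) (law 1 ρ) := by
  refine ((integrable_const (1 : ℝ)).add hF).mono'
    (Real.continuous_sqrt.comp_aestronglyMeasurable hF.aestronglyMeasurable)
    (Eventually.of_forall fun η => ?_)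
  rw [Real.norm_eq_abs, abs_of_nonneg (Real.sqrt_nonneg _)]
  simp only [Pi.add_apply]
  refine Real.sqrt_le_iff.2 ⟨by linarith [h0 η], ?_⟩
  nlinarith [h0 η]

/-- Jensen with a free parameter. -/
lemma half_le {F : Env 1 → ℝ} (hF : Integrable F (law 1 ρ)) (h0 : ∀ η, 0 ≤ F η) {t b : ℝ}
    (ht : 0 < t) (hb : ∫ η, F η ∂(law 1 ρ) ≤ b) :
    ∫ η, Real.sqrt (F η) ∂(law 1 ρ) ≤ (t + b / t) / 2 := by
  have h1 : ∀ η, Real.sqrt (F η) ≤ t / 2 + F η / (2 * t) := by
    intro η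
    have h2 : 0 ≤ F η / (2 * t) := div_nonneg (h0 η) (by positivity)
    refine Real.sqrt_le_iff.2 ⟨by positivity, ?_⟩
    have h3 : F η = 4 * (t / 2) * (F η / (2 * t)) := by field_simp; norm_num
    nlinarith [sq_nonneg (t / 2 - F η / (2 * t))]
  have h2 : Integrable (fun η => F η / (2 * t)) (law 1 ρ) := hF.div_const _
  have h4 : ∫ η, (t / 2 + F η / (2 * t)) ∂(law 1 ρ) =
      t / 2 + (∫ η, F η ∂(law 1 ρ)) / (2 * t) := by
    rw [integral_add (integrable_const _) h2, integral_const, integral_div (2 * t) F]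
    simp
  calc ∫ η, Real.sqrt (F η) ∂(law 1 ρ) ≤ ∫ η, (t / 2 + F η / (2 * t)) ∂(law 1 ρ) :=
        integral_mono (int_sqrt hF h0) ((integrable_const _).add h2) h1
    _ = t / 2 + (∫ η, F η ∂(law 1 ρ)) / (2 * t) := h4
    _ ≤ t / 2 + b / (2 * t) := by gcongr
    _ = (t + b / t) / 2 := by field_simp

/-- Cauchy and Schwarz with a free parameter. -/
lemma half_le2 {F f : Env 1 → ℝ} (hF : Integrable F (law 1 ρ)) (h0 : ∀ η, 0 ≤ F η) {t b ε : ℝ}
    (ht : 0 < t) (hf : Measurable f) (hε : 0 < ε) (hf1 : ∀ η, ε ≤ f η ∧ f η ≤ 1)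
    (h2 : ∫ η, (f η)⁻¹ ∂(law 1 ρ) ≤ 2) (hb : ∫ η, F η * f η ∂(law 1 ρ) ≤ b) :
    ∫ η, Real.sqrt (F η) ∂(law 1 ρ) ≤ t + b / (2 * t) := by
  have hfp : ∀ η, 0 < f η := fun η => hε.trans_le (hf1 η).1
  have h1 : ∀ η, Real.sqrt (F η) ≤ t / 2 * (f η)⁻¹ + F η * f η / (2 * t) := by
    intro η
    have h3 := hfp η
    have h4 : 0 ≤ F η * f η / (2 * t) := div_nonneg (mul_nonneg (h0 η) h3.le) (by positivity)
    have h5 : 0 ≤ t / 2 * (f η)⁻¹ := by positivity
    refine Real.sqrt_le_iff.2 ⟨by positivity, ?_⟩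
    have h6 : F η = 4 * (t / 2 * (f η)⁻¹) * (F η * f η / (2 * t)) := by field_simp; norm_num
    nlinarith [sq_nonneg (t / 2 * (f η)⁻¹ - F η * f η / (2 * t))]
  have i1 : Integrable (fun η => (f η)⁻¹) (law 1 ρ) := by
    refine (integrable_const (ε⁻¹)).mono' hf.inv.aestronglyMeasurable
      (Eventually.of_forall fun η => ?_)
    rw [Real.norm_eq_abs, abs_of_pos (inv_pos.2 (hfp η))]
    exact inv_anti₀ hε (hf1 η).1
  have i2 : Integrable (fun η => F η * f η) (law 1 ρ) := by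
    refine hF.mono' (hF.aestronglyMeasurable.mul hf.aestronglyMeasurable)
      (Eventually.of_forall fun η => ?_)
    rw [Real.norm_eq_abs, abs_of_nonneg (mul_nonneg (h0 η) (hfp η).le)]
    exact mul_le_of_le_one_right (h0 η) (hf1 η).2
  have i3 : Integrable (fun η => t / 2 * (f η)⁻¹) (law 1 ρ) := i1.const_mul _
  have i4 : Integrable (fun η => F η * f η / (2 * t)) (law 1 ρ) := i2.div_const _
  calc ∫ η, Real.sqrt (F η) ∂(law 1 ρ)
      ≤ ∫ η, (t / 2 * (f η)⁻¹ + F η * f η / (2 * t)) ∂(law 1 ρ) :=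
        integral_mono (int_sqrt hF h0) (i3.add i4) h1
    _ = t / 2 * ∫ η, (f η)⁻¹ ∂(law 1 ρ) + (∫ η, F η * f η ∂(law 1 ρ)) / (2 * t) := by
        rw [integral_add i3 i4, integral_const_mul, integral_div]
    _ ≤ t / 2 * 2 + b / (2 * t) := by gcongr
    _ = t + b / (2 * t) := by ring

/-- The end point of a walk from one cell to another one. -/
lemma cell_far {n : ℕ} (hn : 1 ≤ n) {a v : Vec 1} {x p y : Site 1} (hx : x ∈ cell n a)
    (hp : x + p ∈ cell n (a + (n : ℝ) • v + Real.sqrt n • emb y)) (j : Fin 1) :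
    (|(y j : ℝ)| - 1) * Real.sqrt n ≤ |(p j : ℝ) - n * v j| := by
  have h1 := hx j
  have h2 := hp j
  have e : (a + (n : ℝ) • v + Real.sqrt n • emb y) j = a j + n * v j + Real.sqrt n * y j := by
    simp [emb]
  have e2 : (((x + p) j : ℤ) : ℝ) = x j + p j := by
    simp
  rw [e, e2] at h2
  have h3 : 0 < Real.sqrt n := Real.sqrt_pos.2 (by exact_mod_cast hn)
  rcases le_total 0 (y j : ℝ) with h | h
  · rw [abs_of_nonneg h]
    refine le_trans ?_ (le_abs_self _)
    nlinarith [h1.1, h1.2, h2.1, h2.2]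
  · rw [abs_of_nonpos h]
    refine le_trans ?_ (neg_le_abs _)
    nlinarith [h1.1, h1.2, h2.1, h2.2]

/-- The weight of the far cells. -/
noncomputable def gg (y : Site 1) : ℝ :=
  Real.exp (-(|(y 0 : ℝ)| / 4))

lemma gg_nonneg (y : Site 1) : 0 ≤ gg y := by
  unfold gg
  positivity

lemma summable_int : Summable fun k : ℤ => Real.exp (-(|(k : ℝ)| / 4)) := by
  have h1 : Summable fun k : ℕ => Real.exp (-((k : ℝ) / 4)) := by
    have h2 : ∀ k : ℕ, Real.exp (-((k : ℝ) / 4)) = Real.exp (-(1 / 4)) ^ k := by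
      intro k
      rw [← Real.exp_nat_mul]
      congr 1
      ring
    simp only [h2]
    exact summable_geometric_of_lt_one (Real.exp_pos _).le (Real.exp_lt_one_iff.2 (by norm_num))
  refine Summable.of_nat_of_neg ?_ ?_
  · simpa using h1
  · simpa using h1

lemma summable_gg : Summable gg :=
  (Equiv.funUnique (Fin 1) ℤ).summable_iff.2 summable_int

open Classical in
lemma end_le {C₀ : ℝ} (hC₀ : 0 < C₀) (hE : ∀ (h : Vec 1) (n : ℕ) (r : ℝ), 1 ≤ n → 0 ≤ r →
    (∑ s : Fin n → Step 1, if ∃ j, r * Real.sqrt n ≤ |(pos s n j : ℝ) - n * vm h j|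
      then pS h s else 0) ≤ C₀ * Real.exp (-r)) (h : Vec 1) {n : ℕ} (hn : 1 ≤ n) {a : Vec 1}
    {x : Site 1} (hx : x ∈ cell n a) (y : Site 1) :
    (∑ s : Fin n → Step 1, if x + pos s n ∈
      cell n (a + (n : ℝ) • vm h + Real.sqrt n • emb y) then pS h s else 0) ≤
      C₀ * Real.exp 1 * gg y ^ 2 := by
  obtain ⟨j, hj⟩ : ∃ j : Fin 1, ∀ i, |(y i : ℝ)| ≤ |(y j : ℝ)| :=
    ⟨0, fun i => by rw [Subsingleton.elim i 0]⟩
  have h2 : (∑ s : Fin n → Step 1, if ∃ i, max 0 (|(y j : ℝ)| - 1) * Real.sqrt n ≤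
        |(pos s n i : ℝ) - n * vm h i| then pS h s else 0) ≤
      C₀ * Real.exp (-max 0 (|(y j : ℝ)| - 1)) := hE h n _ hn (le_max_left _ _)
  have h3 : (∑ s : Fin n → Step 1, if x + pos s n ∈
      cell n (a + (n : ℝ) • vm h + Real.sqrt n • emb y) then pS h s else 0) ≤
      ∑ s : Fin n → Step 1, if ∃ i, max 0 (|(y j : ℝ)| - 1) * Real.sqrt n ≤
        |(pos s n i : ℝ) - n * vm h i| then pS h s else 0 := by
    refine Finset.sum_le_sum fun s _ => ?_
    split_ifs with h2 h3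
    · exact le_rfl
    · refine absurd ⟨j, ?_⟩ h3
      rcases le_total 0 (|(y j : ℝ)| - 1) with h4 | h4
      · rw [max_eq_right h4]
        exact cell_far hn hx h2 j
      · rw [max_eq_left h4, zero_mul]
        exact abs_nonneg _
    · exact pS_nonneg h s
    · exact le_rfl
  refine (h3.trans h2).trans ?_
  rw [mul_assoc]
  refine mul_le_mul_of_nonneg_left ?_ hC₀.le
  unfold gg
  rw [← Real.exp_nat_mul, ← Real.exp_add]
  apply Real.exp_le_exp.2
  have h4 := hj 0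
  have h5 := abs_nonneg (y 0 : ℝ)
  have h6 := le_max_right 0 (|(y j : ℝ)| - 1)
  push_cast
  linarith

end OneA94

section Main

open OneA94

/-- L9. -/
theorem oneL94 {ρ : Measure ℝ} [IsProbabilityMeasure ρ] (he : EM ρ) {β : ℝ} (hC : ChgL ρ β)
    (hE : EndL) : OneL ρ β := by
  classical
  obtain ⟨C₀, hC₀, hE⟩ := hE
  intro h δ hδ
  obtain ⟨c, hc⟩ : ∃ c : ℝ, c = (1 + C₀ * Real.exp 1) / 2 := ⟨_, rfl⟩
  have hc0 : 0 < c := by
    rw [hc]
    positivity
  obtain ⟨N, hN⟩ := summable_iff_vanishing_norm.1 (summable_gg.mul_left c) (δ / 2) (by positivity)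
  obtain ⟨t, ht⟩ : ∃ t : ℝ, t = δ / (4 * (N.card + 1)) := ⟨_, rfl⟩
  have ht0 : 0 < t := by
    rw [ht]
    positivity
  obtain ⟨ε, hε⟩ : ∃ ε : ℝ, ε = min 1 (t ^ 2 / 2) := ⟨_, rfl⟩
  have hε0 : 0 < ε := by
    rw [hε]
    exact lt_min one_pos (by positivity)
  have hε1 : ε ≤ 1 := by
    rw [hε]
    exact min_le_left _ _
  have hε2 : ε ≤ t ^ 2 / 2 := by
    rw [hε]
    exact min_le_right _ _
  obtain ⟨n₀, hn₀⟩ := hC h ε hε0 hε1
  refine ⟨max n₀ 1, le_max_right _ _, ?_⟩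
  obtain ⟨n, hn⟩ : ∃ n : ℕ, n = max n₀ 1 := ⟨_, rfl⟩
  rw [← hn]
  have hn1 : 1 ≤ n := by
    rw [hn]
    exact le_max_right _ _
  intro a S u hu hS hu1 T
  obtain ⟨f, hf, hf1, -, hf2, hf3⟩ := hn₀ n (by rw [hn]; exact le_max_left _ _) a
  obtain ⟨W, hW⟩ : ∃ W : Site 1 → Env 1 → ℝ, W = fun y η => ∑ x ∈ S, u x * WE ρ β h n x
    (cell n (a + (n : ℝ) • vm h + Real.sqrt n • emb y)) η := ⟨_, rfl⟩
  have hW0 : ∀ y η, 0 ≤ W y η := by
    intro y η
    rw [hW]
    exact Finset.sum_nonneg fun x _ => mul_nonneg (hu x) (WE_nonneg _ _ _ _ _ _ _)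
  have hWi : ∀ y, Integrable (W y) (law 1 ρ) := by
    intro y
    rw [hW]
    exact integrable_finsetSum _ fun x _ => (int_WE he β h n x _).1.const_mul _
  have hfp : ∀ η, 0 < f η := fun η => hε0.trans_le (hf1 η).1
  have hfi : ∀ F : Env 1 → ℝ, Integrable F (law 1 ρ) → (∀ η, 0 ≤ F η) →
      Integrable (fun η => F η * f η) (law 1 ρ) := by
    intro F hF h0
    refine hF.mono' (hF.aestronglyMeasurable.mul hf.aestronglyMeasurable)
      (Eventually.of_forall fun η => ?_)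
    rw [Real.norm_eq_abs, abs_of_nonneg (mul_nonneg (h0 η) (hfp η).le)]
    exact mul_le_of_le_one_right (h0 η) (hf1 η).2
  have hnear : ∀ y, ∫ η, Real.sqrt (W y η) ∂(law 1 ρ) ≤ 2 * t := by
    intro y
    have h1 : ∫ η, W y η * f η ∂(law 1 ρ) ≤ 4 * ε := by
      have h2 : ∀ η, W y η * f η ≤ ∑ x ∈ S, u x * (WE ρ β h n x Set.univ η * f η) := by
        intro η
        rw [hW]
        simp only
        rw [Finset.sum_mul]
        refine Finset.sum_le_sum fun x _ => ?_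
        rw [mul_assoc]
        exact mul_le_mul_of_nonneg_left (mul_le_mul_of_nonneg_right (WE_le_univ _ _ _ _ _ _ _)
          (hfp η).le) (hu x)
      have h3 : ∀ x ∈ S, Integrable (fun η => u x * (WE ρ β h n x Set.univ η * f η))
          (law 1 ρ) := fun x _ => (hfi _ (int_WE he β h n x _).1
            fun η => WE_nonneg _ _ _ _ _ _ _).const_mul _
      calc ∫ η, W y η * f η ∂(law 1 ρ)
          ≤ ∫ η, ∑ x ∈ S, u x * (WE ρ β h n x Set.univ η * f η) ∂(law 1 ρ) :=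
            integral_mono (hfi _ (hWi y) (hW0 y)) (integrable_finsetSum _ h3) h2
        _ = ∑ x ∈ S, u x * ∫ η, WE ρ β h n x Set.univ η * f η ∂(law 1 ρ) := by
            rw [integral_finsetSum _ h3]
            exact Finset.sum_congr rfl fun x _ => integral_const_mul _ _
        _ ≤ ∑ x ∈ S, u x * (4 * ε) :=
            Finset.sum_le_sum fun x hx => mul_le_mul_of_nonneg_left (hf3 x (hS x hx)) (hu x)
        _ = (∑ x ∈ S, u x) * (4 * ε) := by rw [Finset.sum_mul]
        _ ≤ 1 * (4 * ε) := mul_le_mul_of_nonneg_right hu1 (by positivity)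
        _ = 4 * ε := one_mul _
    refine (half_le2 (hWi y) (hW0 y) ht0 hf hε0 hf1 hf2 h1).trans ?_
    have h4 : 4 * ε / (2 * t) ≤ t := by
      rw [div_le_iff₀ (by positivity)]
      nlinarith
    linarith
  have hfar : ∀ y, ∫ η, Real.sqrt (W y η) ∂(law 1 ρ) ≤ c * gg y := by
    intro y
    have hg : 0 < gg y := by
      unfold gg
      positivity
    have h1 : ∫ η, W y η ∂(law 1 ρ) ≤ C₀ * Real.exp 1 * gg y ^ 2 := by
      rw [hW]
      simp only
      rw [integral_finsetSum _ fun x _ => (int_WE he β h n x _).1.const_mul _]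
      calc ∑ x ∈ S, ∫ η, u x * WE ρ β h n x
            (cell n (a + (n : ℝ) • vm h + Real.sqrt n • emb y)) η ∂(law 1 ρ)
          = ∑ x ∈ S, u x * ∫ η, WE ρ β h n x
            (cell n (a + (n : ℝ) • vm h + Real.sqrt n • emb y)) η ∂(law 1 ρ) :=
            Finset.sum_congr rfl fun x _ => integral_const_mul _ _
        _ ≤ ∑ x ∈ S, u x * (C₀ * Real.exp 1 * gg y ^ 2) := by
            refine Finset.sum_le_sum fun x hx => mul_le_mul_of_nonneg_left ?_ (hu x)
            rw [(int_WE he β h n x _).2]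
            exact end_le hC₀ hE h hn1 (hS x hx) y
        _ = (∑ x ∈ S, u x) * (C₀ * Real.exp 1 * gg y ^ 2) := by rw [Finset.sum_mul]
        _ ≤ 1 * (C₀ * Real.exp 1 * gg y ^ 2) := mul_le_mul_of_nonneg_right hu1 (by positivity)
        _ = _ := one_mul _
    refine (half_le (hWi y) (hW0 y) hg h1).trans (le_of_eq ?_)
    rw [hc]
    field_simp
  have hsplit : ∑ y ∈ T, ∫ η, Real.sqrt (W y η) ∂(law 1 ρ) ≤ δ := by
    rw [← Finset.sum_filter_add_sum_filter_not T (fun y => y ∈ N)]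
    have h1 : ∑ y ∈ T with y ∈ N, ∫ η, Real.sqrt (W y η) ∂(law 1 ρ) ≤ δ / 2 := by
      calc ∑ y ∈ T with y ∈ N, ∫ η, Real.sqrt (W y η) ∂(law 1 ρ)
          ≤ ∑ y ∈ T with y ∈ N, 2 * t := Finset.sum_le_sum fun y _ => hnear y
        _ = ((T.filter (· ∈ N)).card : ℝ) * (2 * t) := by rw [Finset.sum_const, nsmul_eq_mul]
        _ ≤ (N.card + 1 : ℝ) * (2 * t) := by
            refine mul_le_mul_of_nonneg_right ?_ (by positivity)
            have h2 : (T.filter (· ∈ N)).card ≤ N.card :=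
              Finset.card_le_card fun y hy => (Finset.mem_filter.1 hy).2
            have h3 : ((T.filter (· ∈ N)).card : ℝ) ≤ N.card := by exact_mod_cast h2
            linarith
        _ = δ / 2 := by
            rw [ht]
            field_simp
            norm_num
    have h2 : ∑ y ∈ T with y ∉ N, ∫ η, Real.sqrt (W y η) ∂(law 1 ρ) ≤ δ / 2 := by
      have h3 := hN (T.filter (· ∉ N)) (by
        rw [Finset.disjoint_left]
        intro y hy
        exact (Finset.mem_filter.1 hy).2)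
      have h4 := (le_abs_self _).trans h3.le
      exact (Finset.sum_le_sum fun y _ => hfar y).trans h4
    linarith
  rw [hW] at hsplit
  exact hsplit

end Main

end Pool.Agent.W_7d29a1_L1
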