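import Pool.Agent.W_7d29a1_L1.DefsL1
import Pool.Agent.W_7d29a1_Q29.Poly85
import Pool.Agent.W_7d29a1_Q29.Vsd61

/-!
Many blocks (leaf RecL, helper85, second text).
-/

namespace Pool.Agent.W_7d29a1_L1

open MeasureTheory ProbabilityTheory Filter Topology Pool.Agent.W_MP_7d29a1_pr
  Pool.Agent.W_7d29a1_h46 Pool.Agent.W_7d29a1_h46u Pool.Agent.W_7d29a1_D2.B35
  Pool.Agent.W_7d29a1_Q29

namespace R85

variable {ρ : Measure ℝ}

lemma sqrt_sum_le {ι : Type*} (T : Finset ι) (f : ι → ℝ) (hf : ∀ i ∈ T, 0 ≤ f i) :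
    √(∑ i ∈ T, f i) ≤ ∑ i ∈ T, √(f i) := by
  classical
  induction T using Finset.induction_on with
  | empty => simp
  | insert i T hi ih =>
    rw [Finset.sum_insert hi, Finset.sum_insert hi]
    have h1 := ih fun j hj => hf j (Finset.mem_insert_of_mem hj)
    have h2 := hf i (Finset.mem_insert_self i T)
    have h3 : 0 ≤ ∑ j ∈ T, f j := Finset.sum_nonneg fun j hj => hf j (Finset.mem_insert_of_mem hj)
    have h4 : √(f i + ∑ j ∈ T, f j) ≤ √(f i) + √(∑ j ∈ T, f j) := by
      rw [Real.sqrt_le_left (add_nonneg (Real.sqrt_nonneg _) (Real.sqrt_nonneg _))]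
      have e1 := Real.sq_sqrt h2
      have e2 := Real.sq_sqrt h3
      have e3 := mul_nonneg (Real.sqrt_nonneg (f i)) (Real.sqrt_nonneg (∑ j ∈ T, f j))
      nlinarith
    linarith

/-- The normalised partition function of length `m` from `z`. -/
noncomputable def WK (ρ : Measure ℝ) (β : ℝ) (h : Vec 1) (m : ℕ) (z : Site 1) (η : Env 1) : ℝ :=
  Z β h (sh 0 z η) m / (Phi h * Mb ρ β) ^ m

lemma Phi_pos2 (h : Vec 1) : 0 < Phi h :=
  Finset.sum_pos (fun _ _ => Real.exp_pos _) ⟨(⟨0, Nat.one_pos⟩, true), Finset.mem_univ _⟩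

lemma Mb_pos' [IsProbabilityMeasure ρ] (hρ : EM ρ) (β : ℝ) : 0 < Mb ρ β :=
  integral_exp_pos (hρ β)

lemma PM_pos [IsProbabilityMeasure ρ] (hρ : EM ρ) (β : ℝ) (h : Vec 1) : 0 < Phi h * Mb ρ β :=
  mul_pos (Phi_pos2 h) (Mb_pos' hρ β)

lemma WK_nonneg [IsProbabilityMeasure ρ] (hρ : EM ρ) (β : ℝ) (h : Vec 1) (m : ℕ) (z : Site 1)
    (η : Env 1) : 0 ≤ WK ρ β h m z η :=
  div_nonneg (Z_pos Nat.one_pos β h _ m).le (pow_nonneg (PM_pos hρ β h).le m)

lemma measurable_WK (ρ : Measure ℝ) (β : ℝ) (h : Vec 1) (m : ℕ) (z : Site 1) :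
    Measurable (WK ρ β h m z) :=
  ((measurable_Z β h m).comp (measurable_sh 0 z)).div_const _

lemma integrable_WK [IsProbabilityMeasure ρ] (hρ : EM ρ) (β : ℝ) (h : Vec 1) (m : ℕ)
    (z : Site 1) : Integrable (WK ρ β h m z) (law 1 ρ) := by
  have h1 := (mp_sh (ρ := ρ) 0 z).integrable_comp_of_integrable (annealed61 hρ β h m).1
  exact h1.div_const _

lemma dn_nn [IsProbabilityMeasure ρ] (hρ : EM ρ) (β : ℝ) {n : ℕ} (x : Site 1)
    (s : Fin n → Step 1) (η : Env 1) : 0 ≤ dn ρ β x s η :=
  div_nonneg (Real.exp_pos _).le (pow_nonneg (Mb_pos' hρ β).le _)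

lemma pS_nn (h : Vec 1) {n : ℕ} (s : Fin n → Step 1) : 0 ≤ pS h s :=
  div_nonneg (Real.exp_pos _).le (pow_nonneg (Phi_pos2 h).le _)

lemma measurable_dn (ρ : Measure ℝ) (β : ℝ) {n : ℕ} (x : Site 1) (s : Fin n → Step 1) :
    Measurable (dn ρ β x s) := by
  unfold dn
  exact (Real.measurable_exp.comp
    (((measurable_energy s).comp (measurable_sh 0 x)).const_mul β)).div_const _

lemma integrable_dn [IsProbabilityMeasure ρ] (hρ : EM ρ) (β : ℝ) {n : ℕ} (x : Site 1)
    (s : Fin n → Step 1) : Integrable (dn ρ β x s) (law 1 ρ) := by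
  have h1 := ((FreeV_iid (d := 1) (ρ := ρ)).integral_exp_energy (hρ β) s).1
  have h2 := (mp_sh (ρ := ρ) 0 x).integrable_comp_of_integrable h1
  exact h2.div_const _

lemma sh0 (n : ℕ) (z : Site 1) (η : Env 1) : sh 0 z (sh n 0 η) = sh n z η := by
  rw [S98.sh_sh, add_zero, zero_add]

lemma WK_add [IsProbabilityMeasure ρ] (hρ : EM ρ) (β : ℝ) (h : Vec 1) (n m : ℕ) (x : Site 1)
    (η : Env 1) : WK ρ β h (n + m) x η =
      ∑ s : Fin n → Step 1, pS h s * dn ρ β x s η * WK ρ β h m (x + pos s n) (sh n 0 η) := by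
  unfold WK
  rw [Z_add, Finset.sum_div]
  refine Finset.sum_congr rfl fun s _ => ?_
  rw [S98.sh_sh, zero_add, sh0]
  unfold wgt pS dn
  rw [Real.exp_add, pow_add, mul_pow (Phi h) (Mb ρ β) n]
  have e1 := (pow_pos (Phi_pos2 h) n).ne'
  have e2 := (pow_pos (Mb_pos' (ρ := ρ) hρ β) n).ne'
  have e3 := (pow_pos (PM_pos (ρ := ρ) hρ β h) m).ne'
  field_simp

lemma dn_spl (ρ : Measure ℝ) (β : ℝ) {n : ℕ} (x : Site 1) (s : Fin n → Step 1) (η ξ : Env 1) :
    dn ρ β x s (spl (Pa 1 n) η ξ) = dn ρ β x s η := by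
  unfold dn
  congr 2
  congr 1
  unfold energy
  refine Finset.sum_congr rfl fun i _ => ?_
  unfold sh
  refine spl_mem η ξ ?_
  change (i : ℕ) + 1 + 0 ≤ n
  exact i.2

lemma WK_spl (ρ : Measure ℝ) (β : ℝ) (h : Vec 1) (n m : ℕ) (z : Site 1) (η ξ : Env 1) :
    WK ρ β h m z (sh n 0 (spl (Pa 1 n) η ξ)) = WK ρ β h m z (sh n 0 ξ) := by
  unfold WK
  rw [sh0, sh0, N85.Z_sh_spl]

open Classical in
/-- The mass sent to `z`. -/
noncomputable def bz (ρ : Measure ℝ) (β : ℝ) (h : Vec 1) (n : ℕ) (S : Finset (Site 1))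
    (u : Site 1 → ℝ) (z : Site 1) (η : Env 1) : ℝ :=
  ∑ x ∈ S, u x * ∑ s : Fin n → Step 1, if x + pos s n = z then pS h s * dn ρ β x s η else 0

open Classical in
/-- The possible end points. -/
noncomputable def TT (n : ℕ) (S : Finset (Site 1)) : Finset (Site 1) :=
  S.biUnion fun x => Finset.univ.image fun s : Fin n → Step 1 => x + pos s n

lemma mem_TT {n : ℕ} {S : Finset (Site 1)} {x : Site 1} (hx : x ∈ S) (s : Fin n → Step 1) :
    x + pos s n ∈ TT n S := by
  classical
  unfold TT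
  exact Finset.mem_biUnion.2 ⟨x, hx, Finset.mem_image_of_mem _ (Finset.mem_univ s)⟩

lemma sum_bz (β : ℝ) (h : Vec 1) (n : ℕ) (S : Finset (Site 1)) (u f : Site 1 → ℝ) (η : Env 1) :
    ∑ z ∈ TT n S, bz ρ β h n S u z η * f z =
      ∑ x ∈ S, u x * ∑ s : Fin n → Step 1, pS h s * dn ρ β x s η * f (x + pos s n) := by
  classical
  unfold bz
  simp only [Finset.sum_mul]
  rw [Finset.sum_comm]
  refine Finset.sum_congr rfl fun x hx => ?_
  simp only [Finset.mul_sum, Finset.sum_mul]
  rw [Finset.sum_comm]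
  refine Finset.sum_congr rfl fun s _ => ?_
  rw [Finset.sum_eq_single (x + pos s n)]
  · rw [if_pos rfl]
    ring
  · intro z _ hz
    rw [if_neg (fun h => hz h.symm)]
    ring
  · intro h
    exact absurd (mem_TT hx s) h

lemma bz_nonneg [IsProbabilityMeasure ρ] (hρ : EM ρ) (β : ℝ) (h : Vec 1) (n : ℕ)
    (S : Finset (Site 1)) {u : Site 1 → ℝ} (hu : ∀ x, 0 ≤ u x) (z : Site 1) (η : Env 1) :
    0 ≤ bz ρ β h n S u z η := by
  unfold bz
  refine Finset.sum_nonneg fun x _ => mul_nonneg (hu x) (Finset.sum_nonneg fun s _ => ?_)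
  split_ifs
  · exact mul_nonneg (pS_nn h s) (dn_nn hρ β x s η)
  · exact le_rfl

/-- The cell of a site. -/
noncomputable def yof (n : ℕ) (c : Vec 1) (z : Site 1) : Site 1 := fun j =>
  ⌊((z j : ℝ) - c j) / √n⌋

lemma mem_cell_iff {n : ℕ} (hn : 1 ≤ n) (c : Vec 1) (z y : Site 1) :
    z ∈ cell n (c + √n • emb y) ↔ yof n c z = y := by
  have hs : 0 < √(n : ℝ) := Real.sqrt_pos.2 (by exact_mod_cast hn)
  unfold cell yof
  constructor
  · intro hz
    funext j
    obtain ⟨h1, h2⟩ := hz j
    have e : (c + √(n : ℝ) • emb y) j = c j + √(n : ℝ) * (y j : ℝ) := rfl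
    rw [e] at h1 h2
    rw [Int.floor_eq_iff, le_div_iff₀ hs, div_lt_iff₀ hs]
    constructor <;> nlinarith
  · intro hz j
    have e : (c + √(n : ℝ) • emb y) j = c j + √(n : ℝ) * (y j : ℝ) := rfl
    rw [e]
    have h1 : ⌊((z j : ℝ) - c j) / √n⌋ = y j := congrFun hz j
    rw [Int.floor_eq_iff, le_div_iff₀ hs, div_lt_iff₀ hs] at h1
    constructor <;> nlinarith [h1.1, h1.2]

lemma sum_bz_cell {n : ℕ} (hn : 1 ≤ n) (β : ℝ) (h c : Vec 1) (S : Finset (Site 1))
    (u : Site 1 → ℝ) (y : Site 1) (η : Env 1) :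
    ∑ z ∈ (TT n S).filter (fun z => yof n c z = y), bz ρ β h n S u z η =
      ∑ x ∈ S, u x * WE ρ β h n x (cell n (c + √n • emb y)) η := by
  classical
  have h1 := sum_bz (ρ := ρ) β h n S u (fun z => if yof n c z = y then (1 : ℝ) else 0) η
  simp only [mul_ite, mul_one, mul_zero] at h1
  rw [Finset.sum_filter, h1]
  refine Finset.sum_congr rfl fun x _ => ?_
  unfold WE
  congr 1
  refine Finset.sum_congr rfl fun s _ => ?_
  by_cases hz : yof n c (x + pos s n) = y
  · rw [if_pos hz, if_pos ((mem_cell_iff hn c _ y).2 hz)]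
  · rw [if_neg hz, if_neg (fun h => hz ((mem_cell_iff hn c _ y).1 h))]

lemma integrable_sqrt {P : Measure (Env 1)} [IsProbabilityMeasure P] {f : Env 1 → ℝ}
    (hf : Integrable f P) (hf0 : ∀ η, 0 ≤ f η) : Integrable (fun η => √(f η)) P := by
  refine Integrable.mono' ((integrable_const (1 : ℝ)).add hf)
    (Real.continuous_sqrt.comp_aestronglyMeasurable hf.aestronglyMeasurable)
    (Eventually.of_forall fun η => ?_)
  rw [Real.norm_eq_abs, abs_of_nonneg (Real.sqrt_nonneg _)]
  show √(f η) ≤ 1 + f η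
  rw [Real.sqrt_le_left (by have := hf0 η; linarith)]
  nlinarith [hf0 η]

end R85

open R85

theorem recL94 {ρ : Measure ℝ} [IsProbabilityMeasure ρ] {β : ℝ} (hρ : EM ρ) (hO : OneL ρ β) :
    RecL ρ β := by
  classical
  intro h δ hδ
  obtain ⟨n, hn, hone⟩ := hO h δ hδ
  refine ⟨n, hn, ?_⟩
  have claim : ∀ k : ℕ, ∀ (a : Vec 1) (S : Finset (Site 1)) (u : Site 1 → ℝ), (∀ x, 0 ≤ u x) →
      (∀ x ∈ S, x ∈ cell n a) → ∑ x ∈ S, u x ≤ 1 →
      ∫ η, √(∑ x ∈ S, u x * WK ρ β h (k * n) x η) ∂(law 1 ρ) ≤ δ ^ k := by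
    intro k
    induction k with
    | zero =>
      intro a S u hu hS hu1
      have hZ0 : ∀ η : Env 1, Z β h η 0 = 1 := by
        intro η
        rw [Z_eq]
        simp only [wgt, energy, pos, Finset.univ_eq_empty, Finset.sum_empty, mul_zero, add_zero,
          Finset.univ_unique, Finset.sum_singleton]
        have e : emb (0 : Site 1) = (0 : Vec 1) := by
          ext j
          simp [emb]
        rw [e, inner_zero_right, Real.exp_zero]
      have h1 : ∀ η : Env 1, √(∑ x ∈ S, u x * WK ρ β h (0 * n) x η) ≤ 1 := by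
        intro η
        rw [Real.sqrt_le_left zero_le_one, one_pow]
        have e : ∀ x, WK ρ β h (0 * n) x η = 1 := by
          intro x
          unfold WK
          rw [zero_mul, hZ0, pow_zero, div_one]
        simp only [e, mul_one]
        exact hu1
      have h2 := integral_mono_of_nonneg (μ := law 1 ρ)
        (Eventually.of_forall fun η => Real.sqrt_nonneg _) (integrable_const (1 : ℝ))
        (Eventually.of_forall h1)
      simpa using h2
    | succ k ih =>
      intro a S u hu hS hu1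
      set c : Vec 1 := a + (n : ℝ) • vm h with hc
      -- the integrand over two independent environments
      have hX : Integrable (fun η => ∑ x ∈ S, u x * WK ρ β h ((k + 1) * n) x η) (law 1 ρ) :=
        integrable_finsetSum S fun x _ => (integrable_WK hρ β h _ x).const_mul _
      have hX0 : ∀ η, 0 ≤ ∑ x ∈ S, u x * WK ρ β h ((k + 1) * n) x η := fun η =>
        Finset.sum_nonneg fun x _ => mul_nonneg (hu x) (WK_nonneg hρ β h _ x η)
      have hXs := integrable_sqrt hX hX0
      have hsplit : ∀ η ξ : Env 1,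
          ∑ x ∈ S, u x * WK ρ β h ((k + 1) * n) x (spl (Pa 1 n) η ξ) =
          ∑ z ∈ TT n S, bz ρ β h n S u z η * WK ρ β h (k * n) z (sh n 0 ξ) := by
        intro η ξ
        rw [sum_bz]
        refine Finset.sum_congr rfl fun x _ => ?_
        have e : (k + 1) * n = n + k * n := by ring
        rw [e, WK_add hρ]
        simp only [dn_spl, WK_spl]
      have h1 := LawU_integral (F := fun g => √(∑ x ∈ S, u x * WK ρ β h ((k + 1) * n) x g))
        (mp_spl (ρ := ρ) (Pa 1 n)) hXs.aestronglyMeasurable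
      have h2 := (mp_spl (ρ := ρ) (Pa 1 n)).integrable_comp_of_integrable hXs
      have h2' : Integrable (fun w : Env 1 × Env 1 =>
          √(∑ z ∈ TT n S, bz ρ β h n S u z w.1 * WK ρ β h (k * n) z (sh n 0 w.2)))
          ((law 1 ρ).prod (law 1 ρ)) := by
        refine h2.congr (Eventually.of_forall fun w => ?_)
        show √(∑ x ∈ S, u x * WK ρ β h ((k + 1) * n) x (spl (Pa 1 n) w.1 w.2)) = _
        rw [hsplit]
      rw [← h1]
      simp only [hsplit]
      rw [integral_prod _ h2']
      -- the inner integral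
      set T : Finset (Site 1) := (TT n S).image (yof n c) with hT
      have hBnn : ∀ y η, 0 ≤ ∑ x ∈ S, u x * WE ρ β h n x (cell n (c + √n • emb y)) η := by
        intro y η
        rw [← sum_bz_cell hn]
        exact Finset.sum_nonneg fun z _ => bz_nonneg hρ β h n S hu z η
      have hinner : ∀ η : Env 1, ∫ ξ, √(∑ z ∈ TT n S, bz ρ β h n S u z η *
          WK ρ β h (k * n) z (sh n 0 ξ)) ∂(law 1 ρ) ≤
          ∑ y ∈ T, √(∑ x ∈ S, u x * WE ρ β h n x (cell n (c + √n • emb y)) η) * δ ^ k := by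
        intro η
        have hbn := fun z => bz_nonneg hρ β h n S hu z η
        have hint : ∀ U : Finset (Site 1), Integrable (fun ξ => √(∑ z ∈ U, bz ρ β h n S u z η *
            WK ρ β h (k * n) z (sh n 0 ξ))) (law 1 ρ) := by
          intro U
          refine integrable_sqrt ?_ fun ξ =>
            Finset.sum_nonneg fun z _ => mul_nonneg (hbn z) (WK_nonneg hρ β h _ z _)
          refine integrable_finsetSum U fun z _ => Integrable.const_mul ?_ _
          exact (mp_sh (ρ := ρ) n 0).integrable_comp_of_integrable (integrable_WK hρ β h _ z)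
        have h3 : ∀ ξ : Env 1, √(∑ z ∈ TT n S, bz ρ β h n S u z η *
            WK ρ β h (k * n) z (sh n 0 ξ)) ≤ ∑ y ∈ T, √(∑ z ∈ (TT n S).filter
              (fun z => yof n c z = y), bz ρ β h n S u z η * WK ρ β h (k * n) z (sh n 0 ξ)) := by
          intro ξ
          rw [← Finset.sum_fiberwise_of_maps_to (s := TT n S) (t := T) (g := yof n c)
            fun z hz => Finset.mem_image_of_mem _ hz]
          exact sqrt_sum_le T _ fun y _ =>
            Finset.sum_nonneg fun z _ => mul_nonneg (hbn z) (WK_nonneg hρ β h _ z _)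
        have h4 := integral_mono (hint (TT n S))
          (integrable_finsetSum T fun y _ => hint ((TT n S).filter (fun z => yof n c z = y))) h3
        refine h4.trans ?_
        rw [integral_finsetSum T fun y _ => hint _]
        refine Finset.sum_le_sum fun y _ => ?_
        -- one cell
        set U := (TT n S).filter (fun z => yof n c z = y) with hU
        have hB := sum_bz_cell (ρ := ρ) hn β h c S u y η
        rw [← hU] at hB
        rw [← hB]
        obtain ⟨B, hBdef⟩ : ∃ B, B = ∑ z ∈ U, bz ρ β h n S u z η := ⟨_, rfl⟩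
        rw [← hBdef]
        have hB0 : 0 ≤ B := by
          rw [hBdef]
          exact Finset.sum_nonneg fun z _ => hbn z
        have h5 : ∫ ξ, √(∑ z ∈ U, bz ρ β h n S u z η * WK ρ β h (k * n) z (sh n 0 ξ)) ∂(law 1 ρ) =
            ∫ ξ, √(∑ z ∈ U, bz ρ β h n S u z η * WK ρ β h (k * n) z ξ) ∂(law 1 ρ) := by
          refine integral_sh n 0 (F := fun ξ => √(∑ z ∈ U, bz ρ β h n S u z η *
            WK ρ β h (k * n) z ξ)) ?_
          exact Real.continuous_sqrt.measurable.comp (Finset.measurable_sum U fun z _ =>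
            (measurable_WK ρ β h (k * n) z).const_mul _)
        rw [h5]
        rcases hB0.eq_or_lt with h6 | h6
        · have h7 : ∀ z ∈ U, bz ρ β h n S u z η = 0 := by
            have h8 : ∑ z ∈ U, bz ρ β h n S u z η = 0 := by rw [← hBdef, ← h6]
            exact (Finset.sum_eq_zero_iff_of_nonneg fun z _ => hbn z).1 h8
          have h9 : ∀ ξ : Env 1, ∑ z ∈ U, bz ρ β h n S u z η * WK ρ β h (k * n) z ξ = 0 :=
            fun ξ => Finset.sum_eq_zero fun z hz => by rw [h7 z hz, zero_mul]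
          simp only [h9, Real.sqrt_zero, integral_zero]
          exact mul_nonneg (Real.sqrt_nonneg _) (pow_nonneg hδ.le k)
        · have h7 : ∀ ξ : Env 1, √(∑ z ∈ U, bz ρ β h n S u z η * WK ρ β h (k * n) z ξ) =
              √B * √(∑ z ∈ U, bz ρ β h n S u z η / B * WK ρ β h (k * n) z ξ) := by
            intro ξ
            rw [← Real.sqrt_mul hB0, Finset.mul_sum]
            congr 1
            refine Finset.sum_congr rfl fun z _ => ?_
            field_simp
          simp only [h7]
          rw [integral_const_mul]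
          refine mul_le_mul_of_nonneg_left ?_ (Real.sqrt_nonneg _)
          refine ih (c + √n • emb y) U (fun z => bz ρ β h n S u z η / B)
            (fun z => div_nonneg (hbn z) hB0) (fun z hz => ?_) ?_
          · rw [hU, Finset.mem_filter] at hz
            exact (mem_cell_iff hn c z y).2 hz.2
          · rw [← Finset.sum_div, ← hBdef, div_self h6.ne']
      have hWEi : ∀ y, Integrable (fun η => √(∑ x ∈ S, u x *
          WE ρ β h n x (cell n (c + √n • emb y)) η)) (law 1 ρ) := by
        intro y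
        refine integrable_sqrt ?_ (hBnn y)
        refine integrable_finsetSum S fun x _ => Integrable.const_mul ?_ _
        unfold WE
        refine integrable_finsetSum _ fun s _ => ?_
        split_ifs
        · exact (integrable_dn hρ β x s).const_mul _
        · exact integrable_zero _ _ _
      have h6 := integral_mono (h2'.integral_prod_left)
        (integrable_finsetSum T fun y _ => (hWEi y).mul_const (δ ^ k)) hinner
      refine h6.trans ?_
      rw [integral_finsetSum T fun y _ => (hWEi y).mul_const (δ ^ k)]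
      simp only [integral_mul_const]
      rw [← Finset.sum_mul, pow_succ, mul_comm (δ ^ k) δ]
      exact mul_le_mul_of_nonneg_right (hone a S u hu hS hu1 T) (pow_nonneg hδ.le k)
  intro k
  have h0 : (0 : Site 1) ∈ cell n (0 : Vec 1) := by
    intro j
    have hs : 0 < √(n : ℝ) := Real.sqrt_pos.2 (by exact_mod_cast hn)
    simp [hs]
  have h1 := claim k 0 {0} (fun _ => 1) (fun _ => zero_le_one)
    (fun x hx => by rw [Finset.mem_singleton.1 hx]; exact h0) (by simp)
  have hsh : ∀ η : Env 1, sh 0 (0 : Site 1) η = η := by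
    intro η
    funext p
    simp [sh]
  simpa [WK, hsh] using h1

end Pool.Agent.W_7d29a1_L1
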