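import Pool.Agent.W_7d29a1_L1.DefsL1
import Pool.Agent.W_7d29a1_Q29.Vsd61

/-!
Very strong disorder in two transversal dimensions: from the half moments of the partition
functions to the free energy.
-/

namespace Pool.Agent.W_7d29a1_L1

open MeasureTheory ProbabilityTheory Filter Topology Pool.Agent.W_MP_7d29a1_pr
  Pool.Agent.W_7d29a1_h46 Pool.Agent.W_7d29a1_h46u Pool.Agent.W_7d29a1_D2.B35
  Pool.Agent.W_7d29a1_Q29

variable {ρ : Measure ℝ} [IsProbabilityMeasure ρ] {β : ℝ}

/-- The half moment controls the mean of the logarithm. -/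
lemma A_le_half94 (hρ : EM ρ) (h : Vec 1) (m : ℕ) {c : ℝ} (hc : 0 < c)
    (hs : ∫ η, Real.sqrt (Z β h η m / (Phi h * Mb ρ β) ^ m) ∂(law 1 ρ) ≤ c) :
    A ρ β h m ≤ m * (Real.log (Phi h) + Real.log (Mb ρ β)) + 2 * Real.log c := by
  have hd : 0 < 1 := by norm_num
  have hm0 : 0 < Mb ρ β := integral_exp_pos (hρ β)
  have hP : 0 < Phi h := Phi_pos61 hd h
  obtain ⟨b, hb⟩ : ∃ b : ℝ, b = Phi h * Mb ρ β := ⟨_, rfl⟩
  have hb0 : 0 < b := by rw [hb]; exact mul_pos hP hm0
  rw [← Real.log_mul hP.ne' hm0.ne', ← hb]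
  rw [← hb] at hs
  have hbn : 0 < b ^ m := pow_pos hb0 _
  have hUi := (annealed61 (d := 1) hρ β h m).1
  have hWi : Integrable (fun η : Env 1 => Z β h η m / b ^ m) (law 1 ρ) := hUi.div_const _
  have hXi : Integrable (fun η : Env 1 => X β h η m) (law 1 ρ) := (concU hd hρ β h m).1
  have hSi : Integrable (fun η : Env 1 => Real.sqrt (Z β h η m / b ^ m)) (law 1 ρ) := by
    refine Integrable.mono' ((integrable_const (1 : ℝ)).add hWi)
      (((measurable_Z β h m).div_const _).sqrt).aestronglyMeasurable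
      (Filter.Eventually.of_forall fun η => ?_)
    have h4 := div_pos (Z_pos hd β h η m) hbn
    rw [Real.norm_eq_abs, abs_of_nonneg (Real.sqrt_nonneg _), Pi.add_apply]
    have h5 := Real.sq_sqrt h4.le
    nlinarith [Real.sqrt_nonneg (Z β h η m / b ^ m), sq_nonneg (Real.sqrt (Z β h η m / b ^ m) - 1)]
  have hpt : ∀ η : Env 1, X β h η m ≤
      (m * Real.log b + 2 * (Real.log c - 1)) +
        2 / c * Real.sqrt (Z β h η m / b ^ m) := by
    intro η
    have h4 := Z_pos hd β h η m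
    have h5 := div_pos h4 hbn
    have h6 : X β h η m = m * Real.log b + Real.log (Z β h η m / b ^ m) := by
      rw [Real.log_div h4.ne' hbn.ne', Real.log_pow]
      unfold X
      ring
    have h7 : 0 < Real.sqrt (Z β h η m / b ^ m) := Real.sqrt_pos.2 h5
    have h8 : Real.log (Z β h η m / b ^ m) = 2 * Real.log (Real.sqrt (Z β h η m / b ^ m)) := by
      rw [Real.log_sqrt h5.le]
      ring
    have h9 := Real.log_le_sub_one_of_pos (div_pos h7 hc)
    rw [Real.log_div h7.ne' hc.ne'] at h9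
    have h10 : 2 / c * Real.sqrt (Z β h η m / b ^ m) =
        2 * (Real.sqrt (Z β h η m / b ^ m) / c) := by ring
    rw [h6, h8, h10]
    linarith
  have i1 : Integrable (fun η : Env 1 => 2 / c * Real.sqrt (Z β h η m / b ^ m)) (law 1 ρ) :=
    hSi.const_mul _
  have hint := integral_mono hXi
    ((integrable_const (m * Real.log b + 2 * (Real.log c - 1))).add i1) hpt
  have e2 : ∫ η, ((m * Real.log b + 2 * (Real.log c - 1)) +
      2 / c * Real.sqrt (Z β h η m / b ^ m)) ∂(law 1 ρ) =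
      ∫ η : Env 1, (m * Real.log b + 2 * (Real.log c - 1)) ∂(law 1 ρ) +
        ∫ η, 2 / c * Real.sqrt (Z β h η m / b ^ m) ∂(law 1 ρ) :=
    integral_add (integrable_const _) i1
  have hfin : A ρ β h m ≤ ∫ η, ((m * Real.log b + 2 * (Real.log c - 1)) +
      2 / c * Real.sqrt (Z β h η m / b ^ m)) ∂(law 1 ρ) := hint
  rw [e2, integral_const_mul] at hfin
  have h11 : 2 / c * ∫ η, Real.sqrt (Z β h η m / b ^ m) ∂(law 1 ρ) ≤ 2 / c * c :=
    mul_le_mul_of_nonneg_left hs (by positivity)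
  have h12 : 2 / c * c = 2 := div_mul_cancel₀ _ hc.ne'
  rw [h12] at h11
  have h13 : ∫ η : Env 1, (m * Real.log b + 2 * (Real.log c - 1)) ∂(law 1 ρ) =
      m * Real.log b + 2 * (Real.log c - 1) := by simp
  rw [h13] at hfin
  linarith

/-- L11: very strong disorder at every tilt. -/
theorem vsdA94 (hρ : EM ρ) (hR : RecL ρ β) : Vsd1 ρ β := by
  intro h
  have hd : 0 < 1 := by norm_num
  obtain ⟨n, hn, hk⟩ := hR h (1 / 2) (by norm_num)
  have hn' : (0 : ℝ) < n := by exact_mod_cast hn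
  have hlog2 : 0 < Real.log 2 := Real.log_pos (by norm_num)
  obtain ⟨B, hB⟩ : ∃ B : ℝ, B = Real.log (Phi h) + Real.log (Mb ρ β) := ⟨_, rfl⟩
  have h1 : ∀ k : ℕ, 1 ≤ k →
      A ρ β h (k * n) / ((k * n : ℕ) : ℝ) ≤ B - 2 * Real.log 2 / n := by
    intro k hk1
    have hk' : (0 : ℝ) < k := by exact_mod_cast hk1
    have h2 := A_le_half94 hρ h (k * n) (c := (1 / 2 : ℝ) ^ k) (by positivity) (hk k)
    rw [← hB, Real.log_pow, one_div, Real.log_inv] at h2
    push_cast at h2 ⊢
    rw [div_le_iff₀ (by positivity)]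
    have h3 : (B - 2 * Real.log 2 / n) * (k * n) = k * n * B + 2 * (k * -Real.log 2) := by
      field_simp
      ring
    rw [h3]
    exact h2
  have h2 : Tendsto (fun k : ℕ => k * n) atTop atTop :=
    tendsto_id.atTop_mul_const' hn
  have h3 := (tendsto_A (d := 1) (ρ := ρ) hd hρ β h).comp h2
  have h4 : lam ρ β h ≤ B - 2 * Real.log 2 / n := by
    refine le_of_tendsto h3 ?_
    filter_upwards [eventually_ge_atTop 1] with k hk1
    exact h1 k hk1
  unfold VSD
  have h5 : 0 < 2 * Real.log 2 / n := by positivity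
  have h6 : B = Real.log (Phi h) + Real.log (∫ t, Real.exp (β * t) ∂ρ) := hB
  linarith

end Pool.Agent.W_7d29a1_L1
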