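import Pool.Agent.W_7d29a1_L1.ChgA94
import Pool.Agent.W_7d29a1_L1.EndA94
import Pool.Agent.W_7d29a1_L1.OneA94
import Pool.Agent.W_7d29a1_L1.RecA94
import Pool.Agent.W_7d29a1_L1.VsdA94

/-!
Very strong disorder in one transversal dimension, at every tilt.
-/

namespace Pool.Agent.W_7d29a1_L1

open MeasureTheory Pool.Agent.W_7d29a1_h46 Pool.Agent.W_7d29a1_h46u Pool.Agent.W_7d29a1_Q29

theorem vsd1 {ρ : Measure ℝ} [IsProbabilityMeasure ρ] (hρ : EM ρ) (hnc : ∀ c : ℝ, ρ {c} ≠ 1)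
    {β : ℝ} (hβ : 0 < β) : Vsd1 ρ β :=
  vsdA94 hρ (recL94 hρ (oneL94 hρ (chgL94 hρ hnc hβ (tiltL94 hρ β)) endL94))

end Pool.Agent.W_7d29a1_L1
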