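import Pool.Agent.W_7d29a1_L1.DefsL1
import Pool.Agent.W_7d29a1_h46u.Subg

/-!
The environment under the density along a walk: independent sites (leaf TiltL, helper85).
-/

namespace Pool.Agent.W_7d29a1_L1

open MeasureTheory ProbabilityTheory Filter Topology Pool.Agent.W_MP_7d29a1_pr
  Pool.Agent.W_7d29a1_h46 Pool.Agent.W_7d29a1_h46u Pool.Agent.W_7d29a1_D2.B35
  Pool.Agent.W_7d29a1_Q29

namespace T85

open scoped ENNReal

/-- A finite product density changes the factors of an infinite product. -/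
lemma withDensity_pi {ι : Type*} {ρ : Measure ℝ} [IsProbabilityMeasure ρ] {D : ι → ℝ → ℝ≥0∞}
    (hD : ∀ p, Measurable (D p)) (h1 : ∀ p, ∫⁻ t, D p t ∂ρ = 1) {J : Finset ι}
    (hJ : ∀ p, p ∉ J → ∀ t, D p t = 1)
    [∀ p, IsProbabilityMeasure (ρ.withDensity (D p))] :
    (Measure.infinitePi fun _ : ι => ρ).withDensity (fun η => ∏ p ∈ J, D p (η p)) =
      Measure.infinitePi fun p => ρ.withDensity (D p) := by
  classical
  refine Measure.eq_infinitePi _ fun s t ht => ?_
  have hpi : MeasurableSet (Set.pi (s : Set ι) t : Set (ι → ℝ)) :=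
    MeasurableSet.pi s.countable_toSet fun i _ => ht i
  rw [withDensity_apply _ hpi, ← lintegral_indicator hpi]
  obtain ⟨G, hG⟩ : ∃ G : ι → ℝ → ℝ≥0∞, G = fun p r =>
    (if p ∈ s then (t p).indicator (fun _ => (1 : ℝ≥0∞)) r else 1) * D p r := ⟨_, rfl⟩
  have hGm : ∀ p, Measurable (G p) := by
    intro p
    rw [hG]
    refine Measurable.mul ?_ (hD p)
    by_cases hp : p ∈ s
    · simp only [if_pos hp]
      exact measurable_const.indicator (ht p)
    · simp only [if_neg hp]
      exact measurable_const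
  have hind : iIndepFun (fun (p : ι) (η : ι → ℝ) => G p (η p))
      (Measure.infinitePi fun _ : ι => ρ) :=
    iIndepFun_infinitePi (P := fun _ : ι => ρ) (X := fun p r => G p r) hGm
  have h2 : ∀ η : ι → ℝ, (Set.pi (s : Set ι) t).indicator (fun η => ∏ p ∈ J, D p (η p)) η =
      ∏ p ∈ s ∪ J, G p (η p) := by
    intro η
    have h3 : ∏ p ∈ s ∪ J, D p (η p) = ∏ p ∈ J, D p (η p) :=
      (Finset.prod_subset Finset.subset_union_right fun p _ hp => hJ p hp _).symm
    have h4 : ∏ p ∈ s ∪ J, (if p ∈ s then (t p).indicator (fun _ => (1 : ℝ≥0∞)) (η p) else 1) =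
        (Set.pi (s : Set ι) t).indicator (fun _ => (1 : ℝ≥0∞)) η := by
      rw [← Finset.prod_subset (s₁ := s) Finset.subset_union_left fun p _ hp => if_neg hp]
      by_cases hη : η ∈ Set.pi (s : Set ι) t
      · rw [Set.indicator_of_mem hη]
        refine Finset.prod_eq_one fun p hp => ?_
        rw [if_pos hp, Set.indicator_of_mem (hη p hp)]
      · rw [Set.indicator_of_notMem hη]
        have h5 : ∃ p ∈ s, η p ∉ t p := by
          by_contra hcon
          push Not at hcon
          exact hη fun p hp => hcon p hp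
        obtain ⟨p, hp, h6⟩ := h5
        refine Finset.prod_eq_zero hp ?_
        rw [if_pos hp, Set.indicator_of_notMem h6]
    rw [hG]
    simp only [Finset.prod_mul_distrib]
    rw [h3, h4]
    by_cases hη : η ∈ Set.pi (s : Set ι) t
    · rw [Set.indicator_of_mem hη, Set.indicator_of_mem hη, one_mul]
    · rw [Set.indicator_of_notMem hη, Set.indicator_of_notMem hη, zero_mul]
  simp only [h2]
  rw [lintegral_prod_eq_prod_lintegral_of_indepFun (s ∪ J) _ hind
    fun p => (hGm p).comp (measurable_pi_apply p)]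
  have h7 : ∀ p, ∫⁻ η, G p (η p) ∂(Measure.infinitePi fun _ : ι => ρ) = ∫⁻ r, G p r ∂ρ := by
    intro p
    have e := Measure.infinitePi_map_eval (μ := fun _ : ι => ρ) p
    conv_rhs => rw [← e]
    exact (lintegral_map (hGm p) (measurable_pi_apply p)).symm
  simp only [h7]
  rw [← Finset.prod_subset (s₁ := s) Finset.subset_union_left fun p _ hp => ?_]
  · refine Finset.prod_congr rfl fun p hp => ?_
    rw [withDensity_apply _ (ht p), ← lintegral_indicator (ht p), hG]
    refine lintegral_congr fun r => ?_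
    simp only [if_pos hp]
    by_cases hr : r ∈ t p
    · rw [Set.indicator_of_mem hr, Set.indicator_of_mem hr, one_mul]
    · rw [Set.indicator_of_notMem hr, Set.indicator_of_notMem hr, zero_mul]
  · rw [hG]
    simp only [if_neg hp, one_mul]
    exact h1 p

lemma sq_exp_int {ρ : Measure ℝ} (hρ : EM ρ) (b : ℝ) :
    Integrable (fun t => t ^ 2 * Real.exp (b * t)) ρ := by
  have h1 := hρ (b + 1)
  have h2 := hρ (b - 1)
  refine Integrable.mono' (h1.add h2) (by fun_prop) (Eventually.of_forall fun t => ?_)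
  rw [Real.norm_eq_abs, abs_of_nonneg (mul_nonneg (sq_nonneg t) (Real.exp_pos _).le)]
  have h3 : t ^ 2 ≤ Real.exp t + Real.exp (-t) := by
    refine (Subg_sq t).trans ?_
    have e1 := Real.exp_pos t
    have e2 := Real.exp_pos (-t)
    rcases le_total 0 t with ht | ht
    · rw [abs_of_nonneg ht]
      linarith
    · rw [abs_of_nonpos ht]
      linarith
  refine (mul_le_mul_of_nonneg_right h3 (Real.exp_pos _).le).trans (le_of_eq ?_)
  simp only [Pi.add_apply]
  rw [add_mul, ← Real.exp_add, ← Real.exp_add]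
  congr 2 <;> ring

/-- The density of the tilted law of one site. -/
noncomputable def gd (ρ : Measure ℝ) (β : ℝ) (t : ℝ) : ℝ≥0∞ :=
  ENNReal.ofReal (Real.exp (β * t) / Mb ρ β)

lemma Mb_pos {ρ : Measure ℝ} [IsProbabilityMeasure ρ] (hρ : EM ρ) (β : ℝ) : 0 < Mb ρ β :=
  integral_exp_pos (hρ β)

lemma measurable_gd (ρ : Measure ℝ) (β : ℝ) : Measurable (gd ρ β) := by
  unfold gd
  fun_prop

lemma lint_gd {ρ : Measure ℝ} [IsProbabilityMeasure ρ] (hρ : EM ρ) (β : ℝ) :
    ∫⁻ t, gd ρ β t ∂ρ = 1 := by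
  unfold gd
  rw [← ofReal_integral_eq_lintegral_ofReal ((hρ β).div_const _)
    (Eventually.of_forall fun t => div_nonneg (Real.exp_pos _).le (Mb_pos hρ β).le),
    integral_div]
  have h1 : (∫ t, Real.exp (β * t) ∂ρ) / Mb ρ β = 1 := div_self (Mb_pos hρ β).ne'
  rw [h1]
  simp

lemma int_gd {ρ : Measure ℝ} [IsProbabilityMeasure ρ] (hρ : EM ρ) (β : ℝ) (f : ℝ → ℝ) :
    ∫ t, f t ∂(ρ.withDensity (gd ρ β)) = (∫ t, f t * Real.exp (β * t) ∂ρ) / Mb ρ β := by
  rw [integral_withDensity_eq_integral_toReal_smul (measurable_gd ρ β)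
    (Eventually.of_forall fun t => ENNReal.ofReal_lt_top), ← integral_div]
  refine integral_congr_ae (Eventually.of_forall fun t => ?_)
  show (gd ρ β t).toReal • f t = f t * Real.exp (β * t) / Mb ρ β
  unfold gd
  rw [ENNReal.toReal_ofReal (div_nonneg (Real.exp_pos _).le (Mb_pos hρ β).le), smul_eq_mul]
  ring

lemma sq_int_gd {ρ : Measure ℝ} [IsProbabilityMeasure ρ] (hρ : EM ρ) (β : ℝ) :
    Integrable (fun t => t ^ 2) (ρ.withDensity (gd ρ β)) := by
  rw [integrable_withDensity_iff_integrable_smul' (measurable_gd ρ β)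
    (Eventually.of_forall fun t => ENNReal.ofReal_lt_top)]
  refine ((sq_exp_int hρ β).div_const (Mb ρ β)).congr (Eventually.of_forall fun t => ?_)
  show t ^ 2 * Real.exp (β * t) / Mb ρ β = (gd ρ β t).toReal • t ^ 2
  unfold gd
  rw [ENNReal.toReal_ofReal (div_nonneg (Real.exp_pos _).le (Mb_pos hρ β).le), smul_eq_mul]
  ring

lemma sq_int {ρ : Measure ℝ} (hρ : EM ρ) : Integrable (fun t => t ^ 2) ρ := by
  have h1 := sq_exp_int hρ 0
  simpa using h1

open Classical in
/-- The sites of the walk. -/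
noncomputable def JJ {n : ℕ} (x : Site 1) (s : Fin n → Step 1) : Finset (ℕ × Site 1) :=
  Finset.univ.image fun i : Fin n => ((i : ℕ) + 1, x + pos s (i + 1))

lemma mem_JJ {n : ℕ} (x : Site 1) (s : Fin n → Step 1) (p : ℕ × Site 1) :
    p ∈ JJ x s ↔ ∃ i ∈ Finset.Icc 1 n, p = (i, x + pos s i) := by
  classical
  unfold JJ
  simp only [Finset.mem_image, Finset.mem_univ, true_and, Finset.mem_Icc]
  constructor
  · rintro ⟨i, rfl⟩
    exact ⟨i + 1, ⟨by omega, i.2⟩, rfl⟩
  · rintro ⟨i, ⟨h1, h2⟩, rfl⟩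
    refine ⟨⟨i - 1, by omega⟩, ?_⟩
    have e : i - 1 + 1 = i := by omega
    simp only [e]

lemma dn_eq {ρ : Measure ℝ} (β : ℝ) {n : ℕ} (x : Site 1) (s : Fin n → Step 1) (η : Env 1) :
    dn ρ β x s η = ∏ p ∈ JJ x s, Real.exp (β * η p) / Mb ρ β := by
  classical
  unfold JJ
  rw [Finset.prod_image]
  · rw [Finset.prod_div_distrib, Finset.prod_const, Finset.card_univ, Fintype.card_fin,
      ← Real.exp_sum]
    unfold dn energy sh
    congr 2
    rw [Finset.mul_sum]
    refine Finset.sum_congr rfl fun i _ => ?_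
    simp only [add_zero]
    rw [add_comm (pos s (i + 1)) x]
  · intro i _ j _ hij
    have h1 := congrArg Prod.fst hij
    exact Fin.ext (by simpa using h1)

end T85

open T85 in
open Classical in
/-- L2. -/
theorem tiltL94 {ρ : Measure ℝ} [IsProbabilityMeasure ρ] (hρ : EM ρ) (β : ℝ) : TiltL ρ β := by
  intro n x s
  obtain ⟨D, hDdef⟩ : ∃ D : ℕ × Site 1 → ℝ → ENNReal, D = fun p =>
    if p ∈ JJ x s then gd ρ β else fun _ => 1 := ⟨_, rfl⟩
  have hDin : ∀ p, p ∈ JJ x s → D p = gd ρ β := fun p hp => by rw [hDdef]; exact if_pos hp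
  have hDout : ∀ p, p ∉ JJ x s → D p = fun _ => 1 := fun p hp => by rw [hDdef]; exact if_neg hp
  have hDm : ∀ p, Measurable (D p) := by
    intro p
    by_cases hp : p ∈ JJ x s
    · rw [hDin p hp]
      exact measurable_gd ρ β
    · rw [hDout p hp]
      exact measurable_const
  have h1 : ∀ p, ∫⁻ t, D p t ∂ρ = 1 := by
    intro p
    by_cases hp : p ∈ JJ x s
    · rw [hDin p hp]
      exact lint_gd hρ β
    · rw [hDout p hp]
      simp
  have hprob : ∀ p, IsProbabilityMeasure (ρ.withDensity (D p)) := fun p =>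
    ⟨by rw [withDensity_apply _ MeasurableSet.univ, setLIntegral_univ]; exact h1 p⟩
  have key := withDensity_pi (ρ := ρ) hDm h1 (J := JJ x s)
    (fun p hp t => by rw [hDout p hp])
  have hmap : ∀ p, (Measure.infinitePi fun p => ρ.withDensity (D p)).map
      (fun η : Env 1 => η p) = ρ.withDensity (D p) := fun p =>
    Measure.infinitePi_map_eval (μ := fun p => ρ.withDensity (D p)) p
  have hout : ∀ p, p ∉ JJ x s → ρ.withDensity (D p) = ρ := by
    intro p hp
    rw [hDout p hp]
    exact withDensity_one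
  refine ⟨Measure.infinitePi fun p => ρ.withDensity (D p), inferInstance, ?_, ?_, ?_, ?_, ?_⟩
  · intro F hF
    rw [← key]
    have hm : Measurable fun η : Env 1 => ∏ p ∈ JJ x s, D p (η p) :=
      Finset.measurable_prod _ fun p _ => (hDm p).comp (measurable_pi_apply p)
    have hfin : ∀ η : Env 1, ∏ p ∈ JJ x s, D p (η p) =
        ENNReal.ofReal (dn ρ β x s η) := by
      intro η
      rw [dn_eq, ENNReal.ofReal_prod_of_nonneg fun p _ =>
        div_nonneg (Real.exp_pos _).le (Mb_pos hρ β).le]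
      refine Finset.prod_congr rfl fun p hp => ?_
      rw [hDin p hp]
      rfl
    have hdn : ∀ η : Env 1, 0 ≤ dn ρ β x s η := fun η =>
      div_nonneg (Real.exp_pos _).le (pow_nonneg (Mb_pos hρ β).le _)
    rw [integral_withDensity_eq_integral_toReal_smul hm (Eventually.of_forall fun η => by
      rw [hfin η]; exact ENNReal.ofReal_lt_top)]
    refine integral_congr_ae (Eventually.of_forall fun η => ?_)
    show (∏ p ∈ JJ x s, D p (η p)).toReal • F η = F η * dn ρ β x s η
    rw [hfin η, ENNReal.toReal_ofReal (hdn η), smul_eq_mul, mul_comm]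
  · exact iIndepFun_infinitePi (P := fun p => ρ.withDensity (D p)) (X := fun _ r => r)
      (fun _ => measurable_id)
  · intro p
    have h2 : Integrable (fun t : ℝ => t ^ 2) (ρ.withDensity (D p)) := by
      by_cases hp : p ∈ JJ x s
      · rw [hDin p hp]
        exact sq_int_gd hρ β
      · rw [hout p hp]
        exact sq_int hρ
    rw [← hmap p] at h2
    exact h2.comp_measurable (measurable_pi_apply p)
  · intro p hp
    have hp' : p ∈ JJ x s := (mem_JJ x s p).2 hp
    have h3 : ∀ f : ℝ → ℝ, Measurable f →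
        ∫ η : Env 1, f (η p) ∂(Measure.infinitePi fun p => ρ.withDensity (D p)) =
        (∫ t, f t * Real.exp (β * t) ∂ρ) / Mb ρ β := by
      intro f hf
      rw [← int_gd hρ β f, ← hDin p hp', ← hmap p,
        integral_map (measurable_pi_apply p).aemeasurable hf.aestronglyMeasurable]
    exact ⟨h3 (fun t => t - ∫ t, t ∂ρ) (by fun_prop),
      h3 (fun t => (t - ∫ t, t ∂ρ) ^ 2) (by fun_prop)⟩
  · intro p hp
    have hp' : p ∉ JJ x s := fun h => hp ((mem_JJ x s p).1 h)
    have h3 : ∀ f : ℝ → ℝ, Measurable f →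
        ∫ η : Env 1, f (η p) ∂(Measure.infinitePi fun p => ρ.withDensity (D p)) =
        ∫ t, f t ∂ρ := by
      intro f hf
      have h4 := integral_map (μ := Measure.infinitePi fun p => ρ.withDensity (D p))
        (measurable_pi_apply p).aemeasurable (f := f) hf.aestronglyMeasurable
      rw [hmap p, hout p hp'] at h4
      exact h4.symm
    refine ⟨?_, h3 (fun t => (t - ∫ t, t ∂ρ) ^ 2) (by fun_prop)⟩
    rw [h3 (fun t => t - ∫ t, t ∂ρ) (by fun_prop)]
    have hi : Integrable (fun t : ℝ => t) ρ := by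
      have h5 := sq_int hρ
      have h6 : MemLp (fun t : ℝ => t) 2 ρ :=
        (memLp_two_iff_integrable_sq measurable_id.aestronglyMeasurable).2 h5
      exact h6.integrable (by norm_num)
    rw [integral_sub hi (integrable_const _)]
    simp

end Pool.Agent.W_7d29a1_L1
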