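import Pool.Agent.W_7d29a1_L1.SecA94
import Pool.Agent.W_7d29a1_L1.WalkA94
import Pool.Agent.W_7d29a1_L1.TiltA94
import Pool.Agent.W_7d29a1_Q29.Vsd61

/-!
The change of measure.
-/

namespace Pool.Agent.W_7d29a1_L1

open MeasureTheory ProbabilityTheory Filter Topology Pool.Agent.W_MP_7d29a1_pr
  Pool.Agent.W_7d29a1_h46 Pool.Agent.W_7d29a1_h46u Pool.Agent.W_7d29a1_D2.B35
  Pool.Agent.W_7d29a1_Q29

namespace C98

lemma m1_pos {ρ : Measure ℝ} [IsProbabilityMeasure ρ] (hρ : EM ρ) (hnc : ∀ c : ℝ, ρ {c} ≠ 1)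
    {β : ℝ} (hβ : 0 < β) : 0 < m1 ρ β := by
  obtain ⟨m, hm⟩ : ∃ m : ℝ, m = ∫ t, t ∂ρ := ⟨_, rfl⟩
  have hsq := T85.sq_int hρ
  have hid : Integrable (fun t : ℝ => t) ρ := by
    have h6 : MemLp (fun t : ℝ => t) 2 ρ :=
      (memLp_two_iff_integrable_sq measurable_id.aestronglyMeasurable).2 hsq
    exact h6.integrable (by norm_num)
  have hte : Integrable (fun t : ℝ => (t - m) * Real.exp (β * t)) ρ := by
    have h1 := T85.sq_exp_int hρ β
    have h2 := hρ β
    refine ((h1.add (h2.const_mul (m ^ 2 + 1)))).mono' (by fun_prop)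
      (Eventually.of_forall fun t => ?_)
    rw [Real.norm_eq_abs, abs_mul, abs_of_pos (Real.exp_pos _)]
    simp only [Pi.add_apply]
    have h3 : |t - m| ≤ t ^ 2 + (m ^ 2 + 1) := by
      rw [abs_le]
      constructor <;> nlinarith [sq_nonneg (t + m), sq_nonneg (t - m), sq_nonneg (t - 1),
        sq_nonneg (t + 1), sq_nonneg (m - 1), sq_nonneg (m + 1)]
    have h4 := mul_le_mul_of_nonneg_right h3 (Real.exp_pos (β * t)).le
    linarith
  have hdiff : Integrable (fun t : ℝ => (t - m) * Real.exp (β * m)) ρ :=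
    (hid.sub (integrable_const _)).mul_const _
  have h0 : ∫ t, (t - m) * Real.exp (β * m) ∂ρ = 0 := by
    rw [integral_mul_const, integral_sub hid (integrable_const _)]
    simp [hm]
  have hpos : 0 < ∫ t, ((t - m) * Real.exp (β * t) - (t - m) * Real.exp (β * m)) ∂ρ := by
    have hnn : ∀ t : ℝ, 0 ≤ (t - m) * Real.exp (β * t) - (t - m) * Real.exp (β * m) := by
      intro t
      rw [← mul_sub]
      rcases le_total m t with h | h
      · exact mul_nonneg (by linarith) (sub_nonneg.2 (Real.exp_le_exp.2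
          (mul_le_mul_of_nonneg_left h hβ.le)))
      · exact mul_nonneg_of_nonpos_of_nonpos (by linarith) (sub_nonpos.2 (Real.exp_le_exp.2
          (mul_le_mul_of_nonneg_left h hβ.le)))
    rw [integral_pos_iff_support_of_nonneg hnn (hte.sub hdiff)]
    by_contra hc
    have h1 : ρ (Function.support fun t : ℝ =>
        (t - m) * Real.exp (β * t) - (t - m) * Real.exp (β * m)) = 0 := by
      simpa using hc
    have h2 : ({m} : Set ℝ)ᶜ ⊆ Function.support fun t : ℝ =>
        (t - m) * Real.exp (β * t) - (t - m) * Real.exp (β * m) := by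
      intro t ht
      rw [Function.mem_support, ← mul_sub]
      have h3 : t ≠ m := ht
      refine mul_ne_zero (sub_ne_zero.2 h3) (sub_ne_zero.2 fun h4 => h3 ?_)
      have h5 := Real.exp_injective h4
      exact mul_left_cancel₀ hβ.ne' h5
    have h3 : ρ ({m} : Set ℝ)ᶜ = 0 := le_antisymm ((measure_mono h2).trans h1.le) zero_le
    exact hnc m ((prob_compl_eq_zero_iff (measurableSet_singleton m)).1 h3)
  rw [integral_sub hte hdiff, h0, sub_zero] at hpos
  unfold m1
  rw [← hm]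
  exact div_pos hpos (T85.Mb_pos hρ β)

lemma NN_le (a v : Vec 1) (R : ℝ) {n : ℕ} (x : Site 1) (s : Fin n → Step 1) :
    NN a v R x s ≤ n := by
  classical
  have hcard : (n : ℝ) = ∑ i ∈ Finset.Icc 1 n, (1 : ℝ) := by simp
  unfold NN
  rw [hcard]
  refine Finset.sum_le_sum fun i _ => ?_
  split_ifs
  · exact le_rfl
  · exact zero_le_one

lemma pS_nonneg (h : Vec 1) {n : ℕ} (s : Fin n → Step 1) : 0 ≤ pS h s := by
  unfold pS
  exact div_nonneg (Real.exp_pos _).le (pow_nonneg (Phi_pos61 (by norm_num) h).le _)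

lemma sum_pS (h : Vec 1) (n : ℕ) : ∑ s : Fin n → Step 1, pS h s = 1 := by
  unfold pS
  rw [← Finset.sum_div, sum_walks61]
  exact div_self (pow_ne_zero _ (Phi_pos61 (by norm_num) h).ne')

lemma int_dn {ρ : Measure ℝ} {β : ℝ} (hT : TiltL ρ β) {n : ℕ} (x : Site 1)
    (s : Fin n → Step 1) : ∫ η, dn ρ β x s η ∂(law 1 ρ) = 1 := by
  obtain ⟨P, hP, h1, -⟩ := hT n x s
  have h2 := h1 (fun _ => 1) measurable_const
  simp only [one_mul] at h2
  rw [← h2]
  simp

lemma dep_LL (ρ : Measure ℝ) (a v : Vec 1) (R : ℝ) (n : ℕ) :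
    DependsOn (LL ρ a v R n) {p : ℕ × Site 1 | 1 ≤ p.1 ∧ p.1 ≤ n} := by
  intro η ξ h
  unfold LL
  refine Finset.sum_congr rfl fun p hp => ?_
  have h1 : η p = ξ p := by
    refine h p ?_
    unfold WI at hp
    simp only [Finset.mem_biUnion, Finset.mem_image, Finset.mem_Icc] at hp
    obtain ⟨i, hi, y, -, rfl⟩ := hp
    exact hi
  rw [h1]

end C98

open C98 in
open Classical in
/-- The change of measure. -/
theorem chgL94 {ρ : Measure ℝ} [IsProbabilityMeasure ρ] (hρ : EM ρ) (hnc : ∀ c : ℝ, ρ {c} ≠ 1)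
    {β : ℝ} (hβ : 0 < β) (hT : TiltL ρ β) : ChgL ρ β := by
  intro h ε hε hε1
  have hm := m1_pos hρ hnc hβ
  obtain ⟨m, hmdef⟩ : ∃ m : ℝ, m = m1 ρ β := ⟨_, rfl⟩
  rw [← hmdef] at hm
  have hR : (2 : ℝ) ≤ 1 + 4 / ε := by
    have : 4 ≤ 4 / ε := by rw [le_div_iff₀ hε]; linarith
    linarith
  obtain ⟨R, hRdef⟩ : ∃ R : ℝ, R = 1 + 4 / ε := ⟨_, rfl⟩
  rw [← hRdef] at hR
  obtain ⟨K, hK, hSec⟩ := secL94 hT (show 1 ≤ R by linarith)
  have hconst : 1 / (R - 1) ^ 2 ≤ ε / 2 := by
    have e : 1 / (R - 1) ^ 2 = ε ^ 2 / 16 := by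
      rw [hRdef]
      field_simp
      ring
    rw [e]
    nlinarith
  obtain ⟨n₁, hn₁⟩ : ∃ n₁ : ℕ, ∀ n : ℕ, n₁ ≤ n → 16 * K / (m ^ 2 * ε) ≤ Real.sqrt n :=
    (tendsto_atTop_atTop.1 (Real.tendsto_sqrt_atTop.comp tendsto_natCast_atTop_atTop)) _
  refine ⟨max 2 n₁, fun n hn a => ?_⟩
  have hn2 : 2 ≤ n := (le_max_left _ _).trans hn
  have hl2 : 16 * K / (m ^ 2 * ε) ≤ Real.sqrt n := hn₁ n ((le_max_right _ _).trans hn)
  have hnR : (2 : ℝ) ≤ n := by exact_mod_cast hn2
  have hHpos : 0 < (n : ℝ) := by linarith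
  obtain ⟨T, hTdef⟩ : ∃ T : ℝ, T = m * n / 4 := ⟨_, rfl⟩
  have hTpos : 0 < T := by rw [hTdef]; positivity
  have hbd : K * (n * Real.sqrt n) / T ^ 2 ≤ ε := by
    rw [div_le_iff₀ (by positivity)]
    have h2 : 16 * K ≤ Real.sqrt n * (m ^ 2 * ε) := by
      rwa [div_le_iff₀ (by positivity)] at hl2
    have hs : Real.sqrt n * Real.sqrt n = n := Real.mul_self_sqrt hHpos.le
    have h5 : ε * T ^ 2 = n * Real.sqrt n / 16 * (Real.sqrt n * (m ^ 2 * ε)) := by
      rw [hTdef]
      have : (n : ℝ) * Real.sqrt n / 16 * (Real.sqrt n * (m ^ 2 * ε)) =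
          n / 16 * (Real.sqrt n * Real.sqrt n) * (m ^ 2 * ε) := by ring
      rw [this, hs]
      ring
    rw [h5]
    have h6 := mul_le_mul_of_nonneg_left h2
      (show (0 : ℝ) ≤ (n : ℝ) * Real.sqrt n / 16 by positivity)
    linarith
  obtain ⟨hQi, hQ, hQs⟩ := hSec a (vm h) n (by omega)
  obtain ⟨Q, hQdef⟩ : ∃ Q : Env 1 → ℝ, Q = LL ρ a (vm h) R n := ⟨_, rfl⟩
  have hQm : Measurable Q := by rw [hQdef]; exact measurable_LL94 ρ a (vm h) R n
  obtain ⟨f, hf⟩ : ∃ f : Env 1 → ℝ, f = fun η => if Q η < T then 1 else ε := ⟨_, rfl⟩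
  have hfm : Measurable f := by
    rw [hf]
    exact Measurable.ite (measurableSet_lt hQm measurable_const) measurable_const measurable_const
  have hfb : ∀ η, ε ≤ f η ∧ f η ≤ 1 := by
    intro η
    rw [hf]
    dsimp only
    split_ifs
    · exact ⟨hε1, le_rfl⟩
    · exact ⟨le_rfl, hε1⟩
  refine ⟨f, hfm, hfb, ?_, ?_, ?_⟩
  · intro η ξ hηξ
    have h1 : Q η = Q ξ := by
      rw [hQdef]
      exact dep_LL ρ a (vm h) R n hηξ
    rw [hf]
    dsimp only
    rw [h1]
  · have h1 : ∀ η, (f η)⁻¹ ≤ 1 + ε⁻¹ / T ^ 2 * Q η ^ 2 := by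
      intro η
      rw [hf]
      dsimp only
      split_ifs with h2
      · have : 0 ≤ ε⁻¹ / T ^ 2 * Q η ^ 2 := by positivity
        simpa using this
      · have h3 : T ^ 2 ≤ Q η ^ 2 := pow_le_pow_left₀ hTpos.le (not_lt.1 h2) 2
        have h4 : ε⁻¹ / T ^ 2 * T ^ 2 = ε⁻¹ := div_mul_cancel₀ _ (by positivity)
        have h5 : ε⁻¹ / T ^ 2 * T ^ 2 ≤ ε⁻¹ / T ^ 2 * Q η ^ 2 :=
          mul_le_mul_of_nonneg_left h3 (by positivity)
        linarith
    have hQi' : Integrable (fun η => Q η ^ 2) (law 1 ρ) := by rw [hQdef]; exact hQi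
    have h2 : ∫ η, (f η)⁻¹ ∂(law 1 ρ) ≤ ∫ η, (1 + ε⁻¹ / T ^ 2 * Q η ^ 2) ∂(law 1 ρ) := by
      refine integral_mono_of_nonneg (Eventually.of_forall fun η => ?_)
        ((integrable_const _).add (hQi'.const_mul _)) (Eventually.of_forall h1)
      exact inv_nonneg.2 (hε.le.trans (hfb η).1)
    refine h2.trans ?_
    rw [integral_add (integrable_const _) (hQi'.const_mul _), integral_const_mul]
    have h3 : ∫ η, Q η ^ 2 ∂(law 1 ρ) ≤ K * (n * Real.sqrt n) := by
      rw [hQdef]; exact hQ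
    have h4 : ε⁻¹ / T ^ 2 * ∫ η, Q η ^ 2 ∂(law 1 ρ) ≤
        ε⁻¹ / T ^ 2 * (K * (n * Real.sqrt n)) :=
      mul_le_mul_of_nonneg_left h3 (by positivity)
    have h5 : ε⁻¹ / T ^ 2 * (K * (n * Real.sqrt n)) =
        ε⁻¹ * (K * (n * Real.sqrt n) / T ^ 2) := by ring
    have h6 : ε⁻¹ * (K * (n * Real.sqrt n) / T ^ 2) ≤ ε⁻¹ * ε :=
      mul_le_mul_of_nonneg_left hbd (by positivity)
    have h7 : ε⁻¹ * ε = 1 := inv_mul_cancel₀ hε.ne'
    have h8 : ∫ _ : Env 1, (1 : ℝ) ∂(law 1 ρ) = 1 := by simp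
    rw [h8]
    linarith
  · intro x hx
    have hWE : ∀ η, WE ρ β h n x Set.univ η * f η =
        ∑ s : Fin n → Step 1, pS h s * (f η * dn ρ β x s η) := by
      intro η
      unfold WE
      rw [Finset.sum_mul]
      refine Finset.sum_congr rfl fun s _ => ?_
      rw [if_pos (Set.mem_univ _)]
      ring
    have hdi : ∀ s : Fin n → Step 1, Integrable (dn ρ β x s) (law 1 ρ) := by
      intro s
      by_contra hc
      have h1 := int_dn hT x s
      rw [integral_undef hc] at h1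
      exact zero_ne_one h1
    have hfi : ∀ s : Fin n → Step 1,
        Integrable (fun η => f η * dn ρ β x s η) (law 1 ρ) := by
      intro s
      refine (hdi s).mono' (hfm.mul (measurable_dn21 ρ β x s)).aestronglyMeasurable
        (Eventually.of_forall fun η => ?_)
      have h0 := dn_nonneg21 ρ β x s η
      rw [Real.norm_eq_abs, abs_of_nonneg (mul_nonneg (hε.le.trans (hfb η).1) h0)]
      exact mul_le_of_le_one_left h0 (hfb η).2
    simp only [hWE]
    rw [integral_finsetSum _ fun s _ => (hfi s).const_mul _]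
    simp only [integral_const_mul]
    have hone : ∀ s : Fin n → Step 1, ∫ η, f η * dn ρ β x s η ∂(law 1 ρ) ≤
        2 * ε + 2 / (n : ℝ) * ((n : ℝ) - NN a (vm h) R x s) := by
      intro s
      have hYle := NN_le a (vm h) R x s
      have hextra : 0 ≤ 2 / (n : ℝ) * ((n : ℝ) - NN a (vm h) R x s) :=
        mul_nonneg (by positivity) (by linarith)
      by_cases hY : (n : ℝ) / 2 ≤ NN a (vm h) R x s
      · obtain ⟨hVi, hV⟩ := hQs x s
        rw [← hmdef, ← hQdef] at hVi hV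
        have h1 : ∀ η, f η * dn ρ β x s η ≤ ε * dn ρ β x s η + (T ^ 2)⁻¹ *
            ((Q η - m * NN a (vm h) R x s) ^ 2 * dn ρ β x s η) := by
          intro η
          have h0 := dn_nonneg21 ρ β x s η
          rw [← mul_assoc, ← add_mul]
          refine mul_le_mul_of_nonneg_right ?_ h0
          rw [hf]
          dsimp only
          split_ifs with h2
          · have h3 : T ≤ m * NN a (vm h) R x s - Q η := by
              have h4 : m * ((n : ℝ) / 2) ≤ m * NN a (vm h) R x s :=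
                mul_le_mul_of_nonneg_left hY hm.le
              have h5 : m * ((n : ℝ) / 2) = 2 * T := by rw [hTdef]; ring
              linarith
            have h4 : T ^ 2 ≤ (Q η - m * NN a (vm h) R x s) ^ 2 := by
              have h5 := pow_le_pow_left₀ hTpos.le h3 2
              nlinarith
            have h5 : (T ^ 2)⁻¹ * T ^ 2 = 1 := inv_mul_cancel₀ (by positivity)
            have h6 := mul_le_mul_of_nonneg_left h4 (show 0 ≤ (T ^ 2)⁻¹ by positivity)
            linarith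
          · have : 0 ≤ (T ^ 2)⁻¹ * (Q η - m * NN a (vm h) R x s) ^ 2 := by positivity
            linarith
        have h2 := integral_mono (hfi s) (((hdi s).const_mul ε).add (hVi.const_mul _)) h1
        rw [integral_add' ((hdi s).const_mul ε) (hVi.const_mul _), integral_const_mul,
          integral_const_mul, int_dn hT x s] at h2
        have h3 := mul_le_mul_of_nonneg_left hV (show 0 ≤ (T ^ 2)⁻¹ by positivity)
        have h4 : (T ^ 2)⁻¹ * (K * (n * Real.sqrt n)) ≤ ε := by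
          rw [inv_mul_eq_div]
          exact hbd
        linarith
      · have h1 : ∫ η, f η * dn ρ β x s η ∂(law 1 ρ) ≤ 1 := by
          rw [← int_dn hT x s]
          refine integral_mono (hfi s) (hdi s) fun η => ?_
          exact mul_le_of_le_one_left (dn_nonneg21 ρ β x s η) (hfb η).2
        have h2 : 1 ≤ 2 / (n : ℝ) * ((n : ℝ) - NN a (vm h) R x s) := by
          rw [div_mul_eq_mul_div, le_div_iff₀ hHpos]
          linarith [not_le.1 hY]
        linarith
    have h1 : ∑ s : Fin n → Step 1, pS h s * ∫ η, f η * dn ρ β x s η ∂(law 1 ρ) ≤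
        ∑ s : Fin n → Step 1, (2 * ε * pS h s +
          2 / (n : ℝ) * (pS h s * ((n : ℝ) - NN a (vm h) R x s))) := by
      refine Finset.sum_le_sum fun s _ => ?_
      have h2 := mul_le_mul_of_nonneg_left (hone s) (pS_nonneg h s)
      linarith
    refine h1.trans ?_
    rw [Finset.sum_add_distrib, ← Finset.mul_sum, ← Finset.mul_sum, sum_pS]
    have h2 := walkL94 h a R n x hR (by omega) hx
    have h3 := h2.trans (mul_le_mul_of_nonneg_right hconst hHpos.le)
    have h4 := mul_le_mul_of_nonneg_left h3 (show 0 ≤ 2 / (n : ℝ) by positivity)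
    have h5 : 2 / (n : ℝ) * (ε / 2 * (n : ℝ)) = ε := by
      field_simp
    linarith

end Pool.Agent.W_7d29a1_L1
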