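import Pool.Agent.W_7d29a1_Q29.Defs29

/-!
Very strong disorder in one transversal dimension: definitions and statements of the leaves.
-/

namespace Pool.Agent.W_7d29a1_L1

open MeasureTheory ProbabilityTheory Filter Topology Pool.Agent.W_MP_7d29a1_pr
  Pool.Agent.W_7d29a1_h46 Pool.Agent.W_7d29a1_h46u Pool.Agent.W_7d29a1_D2.B35
  Pool.Agent.W_7d29a1_Q29

/-- The mean of `exp (β ω)`. -/
noncomputable def Mb (ρ : Measure ℝ) (β : ℝ) : ℝ := ∫ t, Real.exp (β * t) ∂ρ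

/-- The mean step of the walk with the tilt `h`. -/
noncomputable def vm (h : Vec 1) : Vec 1 :=
  ∑ e : Step 1, (Real.exp (inner ℝ h (emb (vec e))) / Phi h) • emb (vec e)

/-- The probability of the walk `s`. -/
noncomputable def pS (h : Vec 1) {n : ℕ} (s : Fin n → Step 1) : ℝ :=
  Real.exp (inner ℝ h (emb (pos s n))) / Phi h ^ n

/-- The density of the environment tilted along the walk `x + s`. -/
noncomputable def dn (ρ : Measure ℝ) (β : ℝ) {n : ℕ} (x : Site 1) (s : Fin n → Step 1)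
    (η : Env 1) : ℝ := Real.exp (β * energy (sh 0 x η) s) / Mb ρ β ^ n

open Classical in
/-- The normalised partition function of length `n` from `x` to the set `E`. -/
noncomputable def WE (ρ : Measure ℝ) (β : ℝ) (h : Vec 1) (n : ℕ) (x : Site 1) (E : Set (Site 1))
    (η : Env 1) : ℝ := ∑ s : Fin n → Step 1, if x + pos s n ∈ E then pS h s * dn ρ β x s η else 0

/-- The cell of side `√n` with lower corner `a`. -/
def cell (n : ℕ) (a : Vec 1) : Set (Site 1) :=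
  {x | ∀ j, a j ≤ (x j : ℝ) ∧ (x j : ℝ) < a j + Real.sqrt n}

/-- The lattice points of the interval of half side `r` around `c`. -/
noncomputable def bx (c : Vec 1) (r : ℝ) : Finset (Site 1) :=
  Fintype.piFinset fun j => Finset.Icc ⌈c j - r⌉ ⌊c j + r⌋

/-- The window: rows `1, …, n`, the interval of half side `R √n` around `a + i v`. -/
noncomputable def WI (a v : Vec 1) (R : ℝ) (n : ℕ) : Finset (ℕ × Site 1) :=
  (Finset.Icc 1 n).biUnion fun i =>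
    (bx (a + (i : ℝ) • v) (R * Real.sqrt n)).image fun x => (i, x)

/-- The sum of the centred environment over the window. -/
noncomputable def LL (ρ : Measure ℝ) (a v : Vec 1) (R : ℝ) (n : ℕ) (η : Env 1) : ℝ :=
  ∑ p ∈ WI a v R n, (η p - ∫ t, t ∂ρ)

open Classical in
/-- The number of the times at which the walk is in the window. -/
noncomputable def NN (a v : Vec 1) (R : ℝ) {n : ℕ} (x : Site 1) (s : Fin n → Step 1) : ℝ :=
  ∑ i ∈ Finset.Icc 1 n, if (i, x + pos s i) ∈ WI a v R n then 1 else 0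

/-- The centred mean of the tilted law. -/
noncomputable def m1 (ρ : Measure ℝ) (β : ℝ) : ℝ :=
  (∫ t, (t - ∫ r, r ∂ρ) * Real.exp (β * t) ∂ρ) / Mb ρ β

/-- L2: the environment under the density along a walk: independent sites. -/
def TiltL (ρ : Measure ℝ) (β : ℝ) : Prop := ∀ (n : ℕ) (x : Site 1) (s : Fin n → Step 1),
  ∃ P : Measure (Env 1), IsProbabilityMeasure P ∧
    (∀ F : Env 1 → ℝ, Measurable F → ∫ η, F η ∂P = ∫ η, F η * dn ρ β x s η ∂(law 1 ρ)) ∧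
    iIndepFun (fun (p : ℕ × Site 1) (η : Env 1) => η p) P ∧
    (∀ p : ℕ × Site 1, Integrable (fun η : Env 1 => η p ^ 2) P) ∧
    (∀ p : ℕ × Site 1, (∃ i ∈ Finset.Icc 1 n, p = (i, x + pos s i)) →
      ∫ η, (η p - ∫ t, t ∂ρ) ∂P = m1 ρ β ∧
      ∫ η, (η p - ∫ t, t ∂ρ) ^ 2 ∂P =
        (∫ t, (t - ∫ r, r ∂ρ) ^ 2 * Real.exp (β * t) ∂ρ) / Mb ρ β) ∧
    (∀ p : ℕ × Site 1, (¬ ∃ i ∈ Finset.Icc 1 n, p = (i, x + pos s i)) →
      ∫ η, (η p - ∫ t, t ∂ρ) ∂P = 0 ∧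
      ∫ η, (η p - ∫ t, t ∂ρ) ^ 2 ∂P = ∫ t, (t - ∫ r, r ∂ρ) ^ 2 ∂ρ)

/-- L7: the change of measure. -/
def ChgL (ρ : Measure ℝ) (β : ℝ) : Prop := ∀ (h : Vec 1) (ε : ℝ), 0 < ε → ε ≤ 1 → ∃ n₀ : ℕ,
  ∀ n : ℕ, n₀ ≤ n → ∀ a : Vec 1, ∃ f : Env 1 → ℝ, Measurable f ∧
    (∀ η, ε ≤ f η ∧ f η ≤ 1) ∧ DependsOn f {p | 1 ≤ p.1 ∧ p.1 ≤ n} ∧
    ∫ η, (f η)⁻¹ ∂(law 1 ρ) ≤ 2 ∧
    ∀ x ∈ cell n a, ∫ η, WE ρ β h n x Set.univ η * f η ∂(law 1 ρ) ≤ 4 * ε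

open Classical in
/-- L8: the end point of the walk. -/
def EndL : Prop := ∃ C₀ : ℝ, 0 < C₀ ∧ ∀ (h : Vec 1) (n : ℕ) (r : ℝ), 1 ≤ n → 0 ≤ r →
  (∑ s : Fin n → Step 1, if ∃ j, r * Real.sqrt n ≤ |(pos s n j : ℝ) - n * vm h j|
    then pS h s else 0) ≤ C₀ * Real.exp (-r)

/-- L9: one block. -/
def OneL (ρ : Measure ℝ) (β : ℝ) : Prop := ∀ (h : Vec 1) (δ : ℝ), 0 < δ → ∃ n : ℕ, 1 ≤ n ∧
  ∀ (a : Vec 1) (S : Finset (Site 1)) (u : Site 1 → ℝ), (∀ x, 0 ≤ u x) → (∀ x ∈ S, x ∈ cell n a) →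
    ∑ x ∈ S, u x ≤ 1 → ∀ T : Finset (Site 1),
      ∑ y ∈ T, ∫ η, Real.sqrt (∑ x ∈ S, u x * WE ρ β h n x
        (cell n (a + (n : ℝ) • vm h + Real.sqrt n • emb y)) η) ∂(law 1 ρ) ≤ δ

/-- L10: many blocks. -/
def RecL (ρ : Measure ℝ) (β : ℝ) : Prop := ∀ (h : Vec 1) (δ : ℝ), 0 < δ → ∃ n : ℕ, 1 ≤ n ∧
  ∀ k : ℕ, ∫ η, Real.sqrt (Z β h η (k * n) / (Phi h * Mb ρ β) ^ (k * n)) ∂(law 1 ρ) ≤ δ ^ k

/-- L11: very strong disorder at every tilt. -/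
def Vsd1 (ρ : Measure ℝ) (β : ℝ) : Prop := ∀ h : Vec 1, VSD ρ β h

end Pool.Agent.W_7d29a1_L1
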