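import Pool.Agent.W_7d29a1_L1.DefsL1

/-!
The second moment of the linear statistic, without and with the tilt along a walk.
-/

namespace Pool.Agent.W_7d29a1_L1

open MeasureTheory ProbabilityTheory Filter Topology Pool.Agent.W_MP_7d29a1_pr
  Pool.Agent.W_7d29a1_h46 Pool.Agent.W_7d29a1_h46u Pool.Agent.W_7d29a1_D2.B35
  Pool.Agent.W_7d29a1_Q29

open Classical in
/-- The indicator of the sites of the walk. -/
noncomputable def ch21 {n : ℕ} (x : Site 1) (s : Fin n → Step 1) (p : ℕ × Site 1) : ℝ :=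
  if ∃ i ∈ Finset.Icc 1 n, p = (i, x + pos s i) then 1 else 0

open Classical in
lemma sum_ch21 {n : ℕ} (x : Site 1) (s : Fin n → Step 1) (I : Finset (ℕ × Site 1))
    (F : ℕ × Site 1 → ℝ) :
    ∑ p ∈ I, F p * ch21 x s p =
      ∑ i ∈ Finset.Icc 1 n, if (i, x + pos s i) ∈ I then F (i, x + pos s i) else 0 := by
  have hg : Function.Injective fun i : ℕ => ((i, x + pos s i) : ℕ × Site 1) :=
    fun i j h => (Prod.ext_iff.1 h).1
  have h1 : (∑ i ∈ Finset.Icc 1 n, if (i, x + pos s i) ∈ I then F (i, x + pos s i) else 0) =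
      ∑ p ∈ (Finset.Icc 1 n).image (fun i => ((i, x + pos s i) : ℕ × Site 1)),
        if p ∈ I then F p else 0 := by
    rw [Finset.sum_image fun i _ j _ h => hg h]
  have h2 : ∀ p, F p * ch21 x s p =
      if p ∈ (Finset.Icc 1 n).image (fun i => ((i, x + pos s i) : ℕ × Site 1)) then F p else 0 := by
    intro p
    unfold ch21
    by_cases hp : ∃ i ∈ Finset.Icc 1 n, p = (i, x + pos s i)
    · rw [if_pos hp, mul_one, if_pos]
      obtain ⟨i, hi, rfl⟩ := hp
      exact Finset.mem_image_of_mem _ hi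
    · rw [if_neg hp, mul_zero, if_neg]
      intro h
      obtain ⟨i, hi, rfl⟩ := Finset.mem_image.1 h
      exact hp ⟨i, hi, rfl⟩
  rw [h1, Finset.sum_congr rfl fun p _ => h2 p, ← Finset.sum_filter, ← Finset.sum_filter]
  refine Finset.sum_congr ?_ fun _ _ => rfl
  ext p
  simp only [Finset.mem_filter]
  exact and_comm

/-- The planted law has the density `dn`. -/
lemma dens21 {ρ : Measure ℝ} [IsProbabilityMeasure ρ] {β : ℝ} {n : ℕ} {x : Site 1}
    {s : Fin n → Step 1} {P : Measure (Env 1)} [IsProbabilityMeasure P]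
    (hP : ∀ F : Env 1 → ℝ, Measurable F →
      ∫ η, F η ∂P = ∫ η, F η * dn ρ β x s η ∂(law 1 ρ))
    (hd0 : ∀ η, 0 ≤ dn ρ β x s η) (hdm : Measurable (dn ρ β x s)) {F : Env 1 → ℝ}
    (hF : Measurable F) (hFi : Integrable F P) :
    Integrable (fun η => F η * dn ρ β x s η) (law 1 ρ) := by
  have hdi : Integrable (dn ρ β x s) (law 1 ρ) := by
    by_contra hc
    have h1 := hP (fun _ => 1) measurable_const
    simp only [one_mul] at h1
    rw [integral_undef hc] at h1
    simp at h1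
  have hPe : P = (law 1 ρ).withDensity fun η => ENNReal.ofReal (dn ρ β x s η) := by
    refine Measure.ext fun A hA => ?_
    rw [withDensity_apply _ hA, ← ofReal_integral_eq_lintegral_ofReal hdi.integrableOn
      (Filter.Eventually.of_forall fun η => hd0 η)]
    have h1 := hP (A.indicator fun _ => 1) (measurable_const.indicator hA)
    have h2 : ∫ η, A.indicator (fun _ => (1 : ℝ)) η ∂P = P.real A := by
      rw [integral_indicator hA]
      simp
    have h3 : ∫ η, A.indicator (fun _ => (1 : ℝ)) η * dn ρ β x s η ∂(law 1 ρ) =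
        ∫ η in A, dn ρ β x s η ∂(law 1 ρ) := by
      rw [← integral_indicator hA]
      refine integral_congr_ae (Filter.Eventually.of_forall fun η => ?_)
      by_cases h : η ∈ A
      · simp [h]
      · simp [h]
    rw [h2, h3] at h1
    rw [← h1, Measure.real, ENNReal.ofReal_toReal (measure_ne_top _ _)]
  rw [hPe] at hFi
  have h4 := (integrable_withDensity_iff (hdm.ennreal_ofReal)
    (Filter.Eventually.of_forall fun η => ENNReal.ofReal_lt_top)).1 hFi
  refine h4.congr (Filter.Eventually.of_forall fun η => ?_)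
  show F η * (ENNReal.ofReal (dn ρ β x s η)).toReal = _
  rw [ENNReal.toReal_ofReal (hd0 η)]

lemma dn_nonneg21 (ρ : Measure ℝ) (β : ℝ) {n : ℕ} (x : Site 1) (s : Fin n → Step 1) (η : Env 1) :
    0 ≤ dn ρ β x s η := by
  unfold dn Mb
  exact div_nonneg (Real.exp_pos _).le (pow_nonneg (integral_nonneg fun t => (Real.exp_pos _).le) _)

lemma measurable_dn21 (ρ : Measure ℝ) (β : ℝ) {n : ℕ} (x : Site 1) (s : Fin n → Step 1) :
    Measurable (dn ρ β x s) := by
  unfold dn energy sh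
  refine (Real.measurable_exp.comp (Measurable.const_mul ?_ β)).div_const _
  exact Finset.measurable_sum _ fun i _ => measurable_pi_apply _

lemma measurable_LL94 (ρ : Measure ℝ) (a v : Vec 1) (R : ℝ) (n : ℕ) :
    Measurable (LL ρ a v R n) := by
  unfold LL
  exact Finset.measurable_sum _ fun p _ =>
    Measurable.sub_const (f := fun η : Env 1 => η p) (measurable_pi_apply p) _

lemma NN_eq94 (a v : Vec 1) (R : ℝ) {n : ℕ} (x : Site 1) (s : Fin n → Step 1) :
    NN a v R x s = ∑ p ∈ WI a v R n, ch21 x s p := by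
  classical
  have h := sum_ch21 x s (WI a v R n) fun _ => 1
  simp only [one_mul] at h
  rw [h]
  rfl

/-- The second moment of a sum of independent variables around its mean. -/
lemma lin94 {P : Measure (Env 1)} [IsProbabilityMeasure P]
    (hI : iIndepFun (fun (p : ℕ × Site 1) (η : Env 1) => η p) P)
    (hsq : ∀ p : ℕ × Site 1, Integrable (fun η : Env 1 => η p ^ 2) P) (c : ℝ)
    (m : ℕ × Site 1 → ℝ) {σ : ℝ}
    (hm : ∀ p : ℕ × Site 1, ∫ η, (η p - c) ∂P = m p)
    (hs : ∀ p : ℕ × Site 1, ∫ η, (η p - c) ^ 2 ∂P ≤ σ) (I : Finset (ℕ × Site 1)) :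
    Integrable (fun η : Env 1 => (∑ p ∈ I, (η p - c - m p)) ^ 2) P ∧
      ∫ η, (∑ p ∈ I, (η p - c - m p)) ^ 2 ∂P ≤ σ * I.card := by
  have hL : ∀ p : ℕ × Site 1, MemLp (fun η : Env 1 => η p - c) 2 P := by
    intro p
    have h1 : MemLp (fun η : Env 1 => η p) 2 P :=
      (memLp_two_iff_integrable_sq (measurable_pi_apply p).aestronglyMeasurable).2 (hsq p)
    exact h1.sub (memLp_const c)
  have hX1 : ∀ p : ℕ × Site 1, Integrable (fun η : Env 1 => η p - c) P := fun p =>
    (hL p).integrable one_le_two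
  have hLm : ∀ p : ℕ × Site 1, MemLp (fun η : Env 1 => η p - c - m p) 2 P := fun p =>
    (hL p).sub (memLp_const (m p))
  have hSm : MemLp (fun η : Env 1 => ∑ p ∈ I, (η p - c - m p)) 2 P :=
    memLp_finset_sum _ fun p _ => hLm p
  refine ⟨hSm.integrable_sq, ?_⟩
  have hIX : iIndepFun (fun (p : ℕ × Site 1) (η : Env 1) => η p - c - m p) P := by
    have := hI.comp (fun p t => t - c - m p) fun p => (measurable_id.sub_const c).sub_const (m p)
    exact this
  have hmean : ∀ p : ℕ × Site 1, ∫ η, (η p - c - m p) ∂P = 0 := by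
    intro p
    rw [integral_sub (hX1 p) (integrable_const _), hm p]
    simp
  have h0 : ∫ η, (∑ p ∈ I, (η p - c - m p)) ∂P = 0 := by
    rw [integral_finsetSum _ fun p _ => (hLm p).integrable one_le_two]
    exact Finset.sum_eq_zero fun p _ => hmean p
  have hvarS : Var[fun η : Env 1 => ∑ p ∈ I, (η p - c - m p); P] =
      ∫ η, (∑ p ∈ I, (η p - c - m p)) ^ 2 ∂P :=
    variance_of_integral_eq_zero hSm.aestronglyMeasurable.aemeasurable h0
  have hvar1 : ∀ p : ℕ × Site 1, Var[fun η : Env 1 => η p - c - m p; P] ≤ σ := by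
    intro p
    have e1 : Var[fun η : Env 1 => η p - c - m p; P] = Var[fun η : Env 1 => η p - c; P] :=
      variance_sub_const (hL p).aestronglyMeasurable (m p)
    rw [e1]
    refine (variance_le_expectation_sq (hL p).aestronglyMeasurable).trans ?_
    exact hs p
  have hsum : Var[fun η : Env 1 => ∑ p ∈ I, (η p - c - m p); P] =
      ∑ p ∈ I, Var[fun η : Env 1 => η p - c - m p; P] := by
    have h := IndepFun.variance_sum (μ := P) (X := fun (p : ℕ × Site 1) (η : Env 1) =>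
      η p - c - m p) (s := I) (fun p _ => hLm p) (fun p _ q _ hpq => hIX.indepFun hpq)
    have e : (∑ p ∈ I, fun η : Env 1 => η p - c - m p) =
        fun η : Env 1 => ∑ p ∈ I, (η p - c - m p) := by
      ext η
      simp [Finset.sum_apply]
    rw [e] at h
    exact h
  rw [← hvarS, hsum]
  refine (Finset.sum_le_sum fun p _ => hvar1 p).trans (le_of_eq ?_)
  rw [Finset.sum_const, nsmul_eq_mul]
  ring

lemma card_bx94 (c : Vec 1) {r : ℝ} (hr : 0 ≤ r) : ((bx c r).card : ℝ) ≤ 2 * r + 1 := by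
  unfold bx
  rw [Fintype.card_piFinset, Fin.prod_univ_one]
  rw [Int.card_Icc]
  by_cases h0 : 0 ≤ ⌊c 0 + r⌋ + 1 - ⌈c 0 - r⌉
  · have h1 : (((⌊c 0 + r⌋ + 1 - ⌈c 0 - r⌉).toNat : ℕ) : ℝ) =
        ((⌊c 0 + r⌋ + 1 - ⌈c 0 - r⌉ : ℤ) : ℝ) := by
      rw [← Int.cast_natCast, Int.toNat_of_nonneg h0]
    rw [h1]
    push_cast
    have h2 := Int.floor_le (c 0 + r)
    have h3 := Int.le_ceil (c 0 - r)
    linarith
  · rw [Int.toNat_of_nonpos (not_le.mp h0).le]
    simp
    linarith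

lemma card_WI94 (a v : Vec 1) {R : ℝ} (hR : 1 ≤ R) {n : ℕ} (hn : 1 ≤ n) :
    ((WI a v R n).card : ℝ) ≤ 3 * R * (n * Real.sqrt n) := by
  classical
  have hn1 : (1 : ℝ) ≤ n := by exact_mod_cast hn
  have hs1 : 1 ≤ Real.sqrt n := Real.one_le_sqrt.2 hn1
  have h1 : (WI a v R n).card ≤ ∑ i ∈ Finset.Icc 1 n,
      ((bx (a + (i : ℝ) • v) (R * Real.sqrt n)).image fun x => (i, x)).card := by
    unfold WI
    exact Finset.card_biUnion_le
  have h2 : ((WI a v R n).card : ℝ) ≤ ∑ i ∈ Finset.Icc 1 n, 3 * R * Real.sqrt n := by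
    refine le_trans (Nat.cast_le.2 h1) ?_
    rw [Nat.cast_sum]
    refine Finset.sum_le_sum fun i _ => ?_
    refine le_trans (Nat.cast_le.2 Finset.card_image_le) ?_
    refine (card_bx94 _ (by positivity)).trans ?_
    have : 1 ≤ R * Real.sqrt n := by nlinarith
    linarith
  refine h2.trans (le_of_eq ?_)
  rw [Finset.sum_const, Nat.card_Icc, nsmul_eq_mul]
  simp only [Nat.add_sub_cancel]
  ring

/-- The second moment of the linear statistic, without and with the tilt. -/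
theorem secL94 {ρ : Measure ℝ} [IsProbabilityMeasure ρ] {β : ℝ} (hT : TiltL ρ β) {R : ℝ}
    (hR : 1 ≤ R) : ∃ K : ℝ, 0 < K ∧ ∀ (a v : Vec 1) (n : ℕ), 1 ≤ n →
    Integrable (fun η => LL ρ a v R n η ^ 2) (law 1 ρ) ∧
    ∫ η, LL ρ a v R n η ^ 2 ∂(law 1 ρ) ≤ K * (n * Real.sqrt n) ∧
    ∀ (x : Site 1) (s : Fin n → Step 1),
      Integrable (fun η => (LL ρ a v R n η - m1 ρ β * NN a v R x s) ^ 2 * dn ρ β x s η)
        (law 1 ρ) ∧
      ∫ η, (LL ρ a v R n η - m1 ρ β * NN a v R x s) ^ 2 * dn ρ β x s η ∂(law 1 ρ) ≤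
        K * (n * Real.sqrt n) := by
  obtain ⟨c, hc⟩ : ∃ c : ℝ, c = ∫ t, t ∂ρ := ⟨_, rfl⟩
  obtain ⟨s0, hs0⟩ : ∃ s0 : ℝ, s0 = ∫ t, (t - ∫ r, r ∂ρ) ^ 2 ∂ρ := ⟨_, rfl⟩
  obtain ⟨s1, hs1⟩ : ∃ s1 : ℝ, s1 = (∫ t, (t - ∫ r, r ∂ρ) ^ 2 * Real.exp (β * t) ∂ρ) / Mb ρ β :=
    ⟨_, rfl⟩
  have hs00 : 0 ≤ s0 := by
    rw [hs0]
    exact integral_nonneg fun t => sq_nonneg _
  have hs10 : 0 ≤ s1 := by
    rw [hs1]
    exact div_nonneg (integral_nonneg fun t => mul_nonneg (sq_nonneg _) (Real.exp_pos _).le)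
      (integral_nonneg fun t => (Real.exp_pos _).le)
  refine ⟨(s0 + s1 + 1) * (3 * R), by positivity, fun a v n hn => ?_⟩
  have hcard := card_WI94 a v hR hn
  have hfin : (s0 + s1) * ((WI a v R n).card : ℝ) ≤ (s0 + s1 + 1) * (3 * R) *
      (n * Real.sqrt n) := by
    have h1 : (s0 + s1) * ((WI a v R n).card : ℝ) ≤ (s0 + s1 + 1) * ((WI a v R n).card : ℝ) :=
      mul_le_mul_of_nonneg_right (by linarith) (Nat.cast_nonneg _)
    have h2 := mul_le_mul_of_nonneg_left hcard (show 0 ≤ s0 + s1 + 1 by linarith)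
    calc _ ≤ _ := h1
      _ ≤ _ := h2
      _ = _ := by ring
  have main : ∀ {k : ℕ} (x : Site 1) (s : Fin k → Step 1) (m : ℕ × Site 1 → ℝ),
      (∀ p : ℕ × Site 1, (∃ i ∈ Finset.Icc 1 k, p = (i, x + pos s i)) → m p = m1 ρ β) →
      (∀ p : ℕ × Site 1, (¬ ∃ i ∈ Finset.Icc 1 k, p = (i, x + pos s i)) → m p = 0) →
      Integrable (fun η : Env 1 => (∑ p ∈ WI a v R n, (η p - c - m p)) ^ 2 * dn ρ β x s η)
        (law 1 ρ) ∧
      ∫ η, (∑ p ∈ WI a v R n, (η p - c - m p)) ^ 2 * dn ρ β x s η ∂(law 1 ρ) ≤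
        (s0 + s1) * ((WI a v R n).card : ℝ) := by
    intro k x s m hmon hmoff
    obtain ⟨P, hPp, hPF, hPi, hPsq, hPon, hPoff⟩ := hT k x s
    rw [← hc] at hPon hPoff
    have h1 : ∀ p : ℕ × Site 1, ∫ η, (η p - c) ∂P = m p := by
      intro p
      by_cases hp : ∃ i ∈ Finset.Icc 1 k, p = (i, x + pos s i)
      · rw [hmon p hp]
        exact (hPon p hp).1
      · rw [hmoff p hp]
        exact (hPoff p hp).1
    have h2 : ∀ p : ℕ × Site 1, ∫ η, (η p - c) ^ 2 ∂P ≤ s0 + s1 := by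
      intro p
      by_cases hp : ∃ i ∈ Finset.Icc 1 k, p = (i, x + pos s i)
      · rw [(hPon p hp).2, hc, ← hs1]
        linarith
      · rw [(hPoff p hp).2, hc, ← hs0]
        linarith
    obtain ⟨h3, h4⟩ := lin94 hPi hPsq c m h1 h2 (WI a v R n)
    have hmeas : Measurable fun η : Env 1 => (∑ p ∈ WI a v R n, (η p - c - m p)) ^ 2 := by
      refine Measurable.pow_const (Finset.measurable_sum _ fun p _ => ?_) 2
      exact Measurable.sub_const (f := fun η : Env 1 => η p - c)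
        (Measurable.sub_const (f := fun η : Env 1 => η p) (measurable_pi_apply p) _) _
    refine ⟨dens21 hPF (dn_nonneg21 ρ β x s) (measurable_dn21 ρ β x s) hmeas h3, ?_⟩
    rw [← hPF _ hmeas]
    exact h4
  have e0 : ∀ η : Env 1, dn ρ β (0 : Site 1) (Fin.elim0 : Fin 0 → Step 1) η = 1 := by
    intro η
    unfold dn energy
    simp
  have hz := main (0 : Site 1) (Fin.elim0 : Fin 0 → Step 1) (fun _ => 0)
    (fun p hp => by
      obtain ⟨i, hi, -⟩ := hp
      simp at hi) (fun p _ => rfl)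
  simp only [e0, mul_one, sub_zero] at hz
  have eL : ∀ η : Env 1, LL ρ a v R n η = ∑ p ∈ WI a v R n, (η p - c) := by
    intro η
    unfold LL
    rw [hc]
  simp only [eL]
  refine ⟨hz.1, hz.2.trans hfin, fun x s => ?_⟩
  have hq : ∀ η : Env 1, (∑ p ∈ WI a v R n, (η p - c)) - m1 ρ β * NN a v R x s =
      ∑ p ∈ WI a v R n, (η p - c - m1 ρ β * ch21 x s p) := by
    intro η
    rw [NN_eq94, Finset.mul_sum, ← Finset.sum_sub_distrib]
  have hp := main x s (fun p => m1 ρ β * ch21 x s p)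
    (fun p hp => by
      unfold ch21
      rw [if_pos hp, mul_one])
    (fun p hp => by
      unfold ch21
      rw [if_neg hp, mul_zero])
  simp only [hq]
  exact ⟨hp.1, hp.2.trans hfin⟩

end Pool.Agent.W_7d29a1_L1
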